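import Mathlib
import Pool.Agent.RSD.Defs

set_option autoImplicit false

/-! # [RSD-E1] from dihedral angles to Gram data -/

open Real

namespace Pool.Agent.RSD

theorem e1_angle (n : Fin 4 → E4) (hn : LinearIndependent ℝ n) (i j : Fin 4) (hij : i ≠ j) :
    0 < InnerProductGeometry.angle (n i) (n j) ∧ InnerProductGeometry.angle (n i) (n j) < π := by
  have hpair : LinearIndependent ℝ ![n i, n j] := by
    have hinj : Function.Injective (![i, j] : Fin 2 → Fin 4) := by
      intro a b hab
      fin_cases a <;> fin_cases b <;> simp_all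
    have h2 := hn.comp ![i, j] hinj
    have h3 : n ∘ ![i, j] = ![n i, n j] := by
      funext k
      fin_cases k <;> rfl
    rwa [h3] at h2
  constructor
  · rcases (InnerProductGeometry.angle_nonneg (n i) (n j)).lt_or_eq with h | h
    · exact h
    · exfalso
      obtain ⟨_, r, hr, hrr⟩ := InnerProductGeometry.angle_eq_zero_iff.mp h.symm
      rw [LinearIndependent.pair_iff] at hpair
      have := hpair r (-1) (by rw [hrr]; module)
      exact absurd this.2 (by norm_num)
  · rcases (InnerProductGeometry.angle_le_pi (n i) (n j)).lt_or_eq with h | h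
    · exact h
    · exfalso
      obtain ⟨_, r, hr, hrr⟩ := InnerProductGeometry.angle_eq_pi_iff.mp h
      rw [LinearIndependent.pair_iff] at hpair
      have := hpair r (-1) (by rw [hrr]; module)
      exact absurd this.2 (by norm_num)

theorem e1_range (N : ℕ) (hN : 1 ≤ N) (k : ℕ) (x : ℝ) (hx0 : 0 < x) (hxpi : x < π)
    (h : π - x = π * k / N) : 0 < k ∧ k < N := by
  have hNp : (0 : ℝ) < N := by exact_mod_cast hN
  have hpi := Real.pi_pos
  constructor
  · rcases Nat.eq_zero_or_pos k with h0 | h0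
    · exfalso
      rw [h0] at h
      simp at h
      linarith
    · exact h0
  · have h1 : π * k / N < π := by linarith
    rw [div_lt_iff₀ hNp] at h1
    have h2 : (k : ℝ) < N := lt_of_mul_lt_mul_left h1 hpi.le
    exact_mod_cast h2

/-- **[RSD-E1a]** Normalise `n' i = ‖n i‖⁻¹ • n i`: same cone (so same volume fraction), same angles,
`⟪n' i, n' j⟫ = cos (angle) = cos (π - π a/N) = ang N a`.  If `a e = 0` the angle is `π` and the two
vectors are dependent (`InnerProductGeometry.angle_eq_pi_iff`); if `a e ≥ N` the angle is `≤ 0`,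
so `0`, and they are dependent (`angle_eq_zero_iff`). -/
theorem hasAngles_gram (N : ℕ) (hN : 1 ≤ N) (a : Fin 6 → ℕ) (n : Fin 4 → E4)
    (h : HasAngles N a n) :
    (∀ e, 0 < a e ∧ a e < N) ∧
    ∃ n' : Fin 4 → E4, IsGram (par N (fun k => a k.succ)) (ang N (a 0)) n' ∧
      LinearIndependent ℝ n' ∧ volFrac n' = volFrac n := by
  obtain ⟨hn, e0, e1, e2, e3, e4, e5⟩ := h
  constructor
  · have r0 := e1_angle n hn 0 1 (by decide)
    have r1 := e1_angle n hn 0 2 (by decide)
    have r2 := e1_angle n hn 0 3 (by decide)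
    have r3 := e1_angle n hn 1 2 (by decide)
    have r4 := e1_angle n hn 1 3 (by decide)
    have r5 := e1_angle n hn 2 3 (by decide)
    intro e
    fin_cases e
    · exact e1_range N hN _ _ r0.1 r0.2 e0
    · exact e1_range N hN _ _ r1.1 r1.2 e1
    · exact e1_range N hN _ _ r2.1 r2.2 e2
    · exact e1_range N hN _ _ r3.1 r3.2 e3
    · exact e1_range N hN _ _ r4.1 r4.2 e4
    · exact e1_range N hN _ _ r5.1 r5.2 e5
  have hpos : ∀ i, 0 < ‖n i‖ := fun i => norm_pos_iff.mpr (hn.ne_zero i)
  have hin : ∀ i j, inner ℝ (‖n i‖⁻¹ • n i) (‖n j‖⁻¹ • n j)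
      = Real.cos (InnerProductGeometry.angle (n i) (n j)) := by
    intro i j
    rw [InnerProductGeometry.cos_angle, real_inner_smul_left, real_inner_smul_right]
    have hi := (hpos i).ne'
    have hj := (hpos j).ne'
    field_simp
  have hcos : ∀ x y : ℝ, π - x = y → Real.cos x = -Real.cos y := by
    intro x y hxy
    rw [← hxy, Real.cos_pi_sub, neg_neg]
  refine ⟨fun i => ‖n i‖⁻¹ • n i, ?_, ?_, ?_⟩
  · constructor
    · intro i
      rw [norm_smul, norm_inv, norm_norm, inv_mul_cancel₀ (hpos i).ne']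
    · rw [hin, hcos _ _ e0]; rfl
    · rw [hin, hcos _ _ e1]; rfl
    · rw [hin, hcos _ _ e2]; rfl
    · rw [hin, hcos _ _ e3]; rfl
    · rw [hin, hcos _ _ e4]; rfl
    · rw [hin, hcos _ _ e5]; rfl
  · exact hn.units_smul (fun i => Units.mk0 (‖n i‖⁻¹) (inv_ne_zero (hpos i).ne'))
  · unfold volFrac
    have hset : {x : E4 | ‖x‖ ≤ 1 ∧ ∀ i : Fin 4, 0 ≤ inner ℝ (‖n i‖⁻¹ • n i) x}
        = {x : E4 | ‖x‖ ≤ 1 ∧ ∀ i : Fin 4, 0 ≤ inner ℝ (n i) x} := by
      ext x
      refine and_congr_right (fun _ => forall_congr' (fun i => ?_))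
      rw [real_inner_smul_left]
      constructor
      · intro h
        have h' := mul_nonneg (hpos i).le h
        rwa [← mul_assoc, mul_inv_cancel₀ (hpos i).ne', one_mul] at h'
      · intro h
        exact mul_nonneg (inv_nonneg.mpr (hpos i).le) h
    rw [hset]

/-- **[RSD-E1b]** conversely, unit vectors with Gram entries `ang N (a e)`, `a e ≤ N`, have the
angles `π a e / N` (`arccos (cos _)`). -/
theorem hasAngles_of_gram (N : ℕ) (hN : 1 ≤ N) (a : Fin 6 → ℕ) (ha : ∀ e, a e ≤ N)
    (n : Fin 4 → E4) (h : IsGram (par N (fun k => a k.succ)) (ang N (a 0)) n)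
    (hn : LinearIndependent ℝ n) : HasAngles N a n := by
  have hNp : (0 : ℝ) < N := by exact_mod_cast hN
  have hpi := Real.pi_pos
  have key : ∀ (i j : Fin 4) (e : Fin 6), inner ℝ (n i) (n j) = ang N (a e) →
      π - InnerProductGeometry.angle (n i) (n j) = π * a e / N := by
    intro i j e hij
    unfold InnerProductGeometry.angle
    rw [hij, h.unit i, h.unit j, mul_one, div_one]
    have hae : (a e : ℝ) ≤ N := by exact_mod_cast ha e
    have h0 : 0 ≤ π * a e / N := by positivity
    have h1 : π * a e / N ≤ π := by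
      rw [div_le_iff₀ hNp]
      exact mul_le_mul_of_nonneg_left hae hpi.le
    unfold ang
    rw [← Real.cos_pi_sub, Real.arccos_cos (by linarith) (by linarith)]
    ring
  exact ⟨hn, key 0 1 0 h.h01, key 0 2 1 h.h02, key 0 3 2 h.h03, key 1 2 3 h.h12, key 1 3 4 h.h13,
    key 2 3 5 h.h23⟩

end Pool.Agent.RSD
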