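import Mathlib
import Pool.Agent.RSD.Defs
import Pool.Agent.RSD.A.A6
import Pool.Agent.RSD.B.B7
import Pool.Agent.RSD.D.D4
import Pool.Agent.RSD.D.D5

set_option autoImplicit false

/-! # [RSD-E2] one window -/

open Real Polynomial

namespace Pool.Agent.RSD

/-- **[RSD-E2a]** the numerical condition of `aux_polys`: with `R = N δ/(32 π)`, `C = 2/δ`,
`m h⁹ 2^46 ≤ N δ⁵` implies `h m / R ≤ 1/(2^33 h⁸ (1 + C)⁴)`, because `1 + C ≤ 3/δ`, so it suffices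
that `m h⁹ · 32π · 81 · 2^33 ≤ N δ⁵`, and `32 π · 81 ≤ 2^13`.  Moreover `π h m/N < δ/32` and
`20 h m < N`. -/
theorem window_cond (N m h : ℕ) (hN : 1 ≤ N) (hm : 1 ≤ m) (hh : 2 ≤ h) (δ : ℝ) (hδ : 0 < δ)
    (hδ1 : δ ≤ 1) (hcond : (m : ℝ) * (h : ℝ) ^ 9 * 2 ^ 46 ≤ N * δ ^ 5) :
    ((h * m : ℕ) : ℝ) / (N * (δ / 32) / π) ≤ 1 / (2 ^ 33 * (h : ℝ) ^ 8 * (1 + 2 / δ) ^ 4) ∧
      π * ((h * m : ℕ) : ℝ) / N < δ / 32 ∧ 20 * ((h * m : ℕ) : ℝ) < N := by
  have hNp : (0 : ℝ) < N := by exact_mod_cast hN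
  have hmp : (1 : ℝ) ≤ m := by exact_mod_cast hm
  have hhp : (2 : ℝ) ≤ h := by exact_mod_cast hh
  have hh0 : (0 : ℝ) < h := by linarith
  have hm0 : (0 : ℝ) < m := by linarith
  have hpi : π < 3.15 := Real.pi_lt_d2
  have hpi0 : 0 < π := Real.pi_pos
  have h8 : (1 : ℝ) ≤ (h : ℝ) ^ 8 := one_le_pow₀ (by linarith)
  have hhm : (h : ℝ) * m ≤ (m : ℝ) * (h : ℝ) ^ 9 := by
    have : (m : ℝ) * (h : ℝ) ^ 9 = (h * m) * (h : ℝ) ^ 8 := by ring
    rw [this]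
    exact le_mul_of_one_le_right (by positivity) h8
  have hδ5 : δ ^ 5 ≤ δ := by
    calc δ ^ 5 ≤ δ ^ 1 := pow_le_pow_of_le_one hδ.le hδ1 (by norm_num)
      _ = δ := pow_one δ
  have hmain : (h : ℝ) * m * 2 ^ 46 ≤ N * δ := by
    calc (h : ℝ) * m * 2 ^ 46 ≤ (m : ℝ) * (h : ℝ) ^ 9 * 2 ^ 46 :=
          mul_le_mul_of_nonneg_right hhm (by positivity)
      _ ≤ N * δ ^ 5 := hcond
      _ ≤ N * δ := mul_le_mul_of_nonneg_left hδ5 hNp.le
  have hcast : ((h * m : ℕ) : ℝ) = (h : ℝ) * m := by push_cast; ring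
  rw [hcast]
  refine ⟨?_, ?_, ?_⟩
  · have h3 : 1 + 2 / δ ≤ 3 / δ := by
      rw [show (3 : ℝ) / δ = 1 / δ + 2 / δ by ring]
      have : 1 ≤ 1 / δ := by rw [le_div_iff₀ hδ]; linarith
      linarith
    have h4 : (1 + 2 / δ) ^ 4 ≤ 81 / δ ^ 4 := by
      calc (1 + 2 / δ) ^ 4 ≤ (3 / δ) ^ 4 := pow_le_pow_left₀ (by positivity) h3 4
        _ = 81 / δ ^ 4 := by rw [div_pow]; norm_num
    have hpos1 : 0 < 2 ^ 33 * (h : ℝ) ^ 8 * (1 + 2 / δ) ^ 4 := by positivity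
    have hpos2 : 0 < N * (δ / 32) / π := by positivity
    rw [div_le_div_iff₀ hpos2 hpos1, one_mul]
    have h5 : 2 ^ 33 * (h : ℝ) ^ 8 * (1 + 2 / δ) ^ 4 ≤ 2 ^ 33 * (h : ℝ) ^ 8 * (81 / δ ^ 4) :=
      mul_le_mul_of_nonneg_left h4 (by positivity)
    calc (h : ℝ) * m * (2 ^ 33 * (h : ℝ) ^ 8 * (1 + 2 / δ) ^ 4)
        ≤ (h : ℝ) * m * (2 ^ 33 * (h : ℝ) ^ 8 * (81 / δ ^ 4)) :=
          mul_le_mul_of_nonneg_left h5 (by positivity)
      _ = ((m : ℝ) * (h : ℝ) ^ 9 * 2 ^ 46) * (81 / (2 ^ 13 * δ ^ 4)) := by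
          field_simp
      _ ≤ (N * δ ^ 5) * (81 / (2 ^ 13 * δ ^ 4)) :=
          mul_le_mul_of_nonneg_right hcond (by positivity)
      _ = N * δ * (81 / 2 ^ 13) := by
          field_simp
      _ ≤ N * (δ / 32) / π := by
          rw [le_div_iff₀ hpi0]
          have : 0 < N * δ := by positivity
          nlinarith
  · rw [div_lt_iff₀ hNp]
    have : 0 < (h : ℝ) * m := by positivity
    nlinarith
  · have : 0 < (h : ℝ) * m := by positivity
    have h6 : N * δ ≤ N := by nlinarith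
    nlinarith

/-- **[RSD-E2]** In a window of radius `h m` around a good index `j₀` there are at most `270 m`
indices `j` for which the volume fraction is `p/q`, `q ≤ 2^m`.

Proof. `θ₀ = π j₀/N`, `ρ = δ/32`, `Fr_series` gives `b`.  `β k = b k (π/N)^k`, `R = Nρ/π`,
`C = 2/δ ≥ 1`: `|β k| ≤ C / R^k`.  `aux_polys` (with `window_cond`) gives `P, Q`.  For `j ∈ J` put
`x = j - j₀`, `|x| < h m`; `y = Fr(ang N j)` is the sum of `β k x^k` since
`π j/N - θ₀ = π x/N` has absolute value `< ρ`.  So `|P(x) + Q(x) y| < 2^{-m}`, and by integrality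
(`integrality`, `P(x), Q(x) ∈ ℤ`) `P(x) + Q(x) y = 0`.  With
`P̃ = P.comp (C (N/π) * X - C j₀)` and `Q̃` likewise (`natDegree` does not increase,
`natDegree_comp_le`-type; `P̃ ≠ 0` iff `P ≠ 0`, e.g. because `P̃.eval (π (j₀ + x)/N) = P.eval x` for
all `x`) `P̃(θ) + Q̃(θ) Fr(-cos θ) = 0` at `θ = πj/N`, `j ∈ J`.  `zero_bound` on
`(θ₀ - πhm/N, θ₀ + πhm/N)` with `F = Fr(-cos ·)`, `F1 = Fp(-cos ·)` (`Fr_hasDerivAt`,
`Fp_hasDerivAt`, `disc_inside`), `N_ne_zero`; `Z = J.image (fun j => π j/N)` has `J.card` elements. -/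
theorem window' (N m h : ℕ) (hN : 1 ≤ N) (hm : 1 ≤ m) (hh : 2 ≤ h) (δ : ℝ) (hδ : 0 < δ)
    (hδ1 : δ ≤ 1) (hcond : (m : ℝ) * (h : ℝ) ^ 9 * 2 ^ 46 ≤ N * δ ^ 5)
    (f : P5) (hNz : ∃ g, f.N g ≠ 0)
    (j0 : ℕ) (hj0 : 0 < j0) (hj0N : j0 < N) (hPD : f.PD (ang N j0)) (hD : δ ≤ f.D (ang N j0))
    (J : Finset ℕ) (hJ : ∀ j ∈ J, j < j0 + h * m ∧ j0 < j + h * m ∧
      ∃ p q : ℕ, 1 ≤ q ∧ q ≤ 2 ^ m ∧ f.Fr (ang N j) = (p : ℝ) / q) :
    J.card ≤ 270 * m := by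
  have hNp : (0 : ℝ) < N := by exact_mod_cast hN
  have hpi0 : 0 < π := Real.pi_pos
  have hj0p : (0 : ℝ) < j0 := by exact_mod_cast hj0
  have hj0Np : (j0 : ℝ) < N := by exact_mod_cast hj0N
  obtain ⟨w1, w2, w3⟩ := window_cond N m h hN hm hh δ hδ hδ1 hcond
  set M : ℝ := ((h * m : ℕ) : ℝ) with hM
  have hM0 : 0 < M := by
    have : 0 < h * m := by positivity
    rw [hM]; exact_mod_cast this
  set θ0 : ℝ := π * j0 / N with hθ0
  have hθ0pos : 0 < θ0 := by positivity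
  have hθ0pi : θ0 < π := by
    rw [hθ0, div_lt_iff₀ hNp]
    exact mul_lt_mul_of_pos_left hj0Np hpi0
  have hang : ∀ j : ℕ, ang N j = -Real.cos (π * j / N) := fun j => rfl
  rw [hang] at hPD hD
  obtain ⟨b, hb, hser⟩ := Fr_series f θ0 δ hδ hδ1 hθ0pos hθ0pi hPD hD
  have hin := disc_inside f θ0 δ hδ hδ1 hθ0pos hθ0pi hPD hD
  set R : ℝ := N * (δ / 32) / π with hR
  have hRpos : 0 < R := by positivity
  have hC1 : 1 ≤ 2 / δ := by rw [le_div_iff₀ hδ]; linarith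
  have hβ : ∀ k, |b k * (π / N) ^ k| ≤ 2 / δ / R ^ k := by
    intro k
    have e1 : 2 / δ / (δ / 32) ^ k * (π / N) ^ k = 2 / δ / R ^ k := by
      rw [hR]
      rw [show (N : ℝ) * (δ / 32) / π = (δ / 32) / (π / N) by field_simp]
      rw [div_pow (δ / 32) (π / N)]
      have h1 : (δ / 32) ^ k ≠ 0 := by positivity
      have h2 : (π / (N : ℝ)) ^ k ≠ 0 := by positivity
      field_simp
    rw [abs_mul, abs_of_nonneg (by positivity : 0 ≤ (π / (N : ℝ)) ^ k), ← e1]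
    exact mul_le_mul_of_nonneg_right (hb k) (by positivity)
  obtain ⟨P, Q, hPd, hQd, hPQ, hint, hsmall⟩ :=
    aux_polys m h hm hh (2 / δ) R hC1 hRpos w1 (fun k => b k * (π / N) ^ k) hβ
  -- the relation at the points of J
  have hrel : ∀ j ∈ J, |(π * j / N) - θ0| < π * M / N ∧
      P.eval ((j : ℝ) - j0) + Q.eval ((j : ℝ) - j0) * f.Fr (-Real.cos (π * j / N)) = 0 := by
    intro j hj
    obtain ⟨hj1, hj2, p, q, hq1, hq2, hq3⟩ := hJ j hj
    rw [hang] at hq3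
    have hx : |(j : ℝ) - j0| < M := by
      have r1 : (j : ℝ) < j0 + M := by rw [hM]; exact_mod_cast hj1
      have r2 : (j0 : ℝ) < j + M := by rw [hM]; exact_mod_cast hj2
      rw [abs_lt]; constructor <;> linarith
    have hdiff : (π * j / N) - θ0 = (π / N) * ((j : ℝ) - j0) := by rw [hθ0]; ring
    have hθ : |(π * j / N) - θ0| < π * M / N := by
      rw [hdiff, abs_mul, abs_of_pos (by positivity : 0 < π / (N : ℝ))]
      calc π / N * |(j : ℝ) - j0| < π / N * M := mul_lt_mul_of_pos_left hx (by positivity)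
        _ = π * M / N := by ring
    refine ⟨hθ, ?_⟩
    have hs := hser (π * j / N) (lt_trans hθ w2)
    have hs' : HasSum (fun k => b k * (π / N) ^ k * ((j : ℝ) - j0) ^ k)
        (f.Fr (-Real.cos (π * j / N))) := by
      refine hs.congr_fun ?_
      intro k
      rw [hdiff, mul_pow]; ring
    have hlt := hsmall ((j : ℝ) - j0) _ hx.le hs'
    obtain ⟨u, v, hu, hv⟩ := hint ((j : ℤ) - j0)
    have hc : (((j : ℤ) - j0 : ℤ) : ℝ) = (j : ℝ) - j0 := by push_cast; ring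
    rw [hc] at hu hv
    rw [hu, hv, hq3] at hlt ⊢
    have := integrality m u v (p : ℤ) q hq1 hq2 (by push_cast; exact hlt)
    push_cast at this
    exact this
  -- linear change of variable
  set L : ℝ[X] := C ((N : ℝ) / π) * X - C (j0 : ℝ) with hL
  set L' : ℝ[X] := C (π / (N : ℝ)) * (X + C (j0 : ℝ)) with hL'
  have hLL : L.comp L' = X := by
    rw [hL, hL']
    simp only [sub_comp, mul_comp, C_comp, X_comp]
    rw [← mul_assoc, ← C_mul]
    have : (N : ℝ) / π * (π / N) = 1 := by field_simp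
    rw [this, C_1, one_mul]
    ring
  have hLdeg : L.natDegree ≤ 1 := by
    rw [hL]
    refine le_trans (natDegree_sub_le _ _) ?_
    refine max_le ?_ ?_
    · refine le_trans natDegree_mul_le ?_
      rw [natDegree_C, natDegree_X]
    · rw [natDegree_C]; exact Nat.zero_le _
  have hdegc : ∀ S : ℝ[X], S.natDegree < 2 * m → (S.comp L).natDegree < 2 * m := by
    intro S hS
    refine lt_of_le_of_lt natDegree_comp_le ?_
    calc S.natDegree * L.natDegree ≤ S.natDegree * 1 := Nat.mul_le_mul_left _ hLdeg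
      _ = S.natDegree := mul_one _
      _ < 2 * m := hS
  have hne : ∀ S : ℝ[X], S ≠ 0 → S.comp L ≠ 0 := by
    intro S hS h0
    apply hS
    have : (S.comp L).comp L' = S := by rw [comp_assoc, hLL, comp_X]
    rw [← this, h0, zero_comp]
  have hLev : ∀ j : ℕ, L.eval (π * j / N) = (j : ℝ) - j0 := by
    intro j
    rw [hL]
    simp only [eval_sub, eval_mul, eval_C, eval_X]
    field_simp
  have hinj : Function.Injective (fun j : ℕ => π * (j : ℝ) / N) := by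
    intro i j hij
    have hij' : π * (i : ℝ) / N = π * (j : ℝ) / N := hij
    have : (i : ℝ) = j := by
      field_simp at hij'
      exact hij'
    exact_mod_cast this
  have hcard : (J.image (fun j : ℕ => π * (j : ℝ) / N)).card = J.card :=
    Finset.card_image_of_injective _ hinj
  rw [← hcard]
  refine zero_bound f ?_ hNz m hm (θ0 - π * M / N) (θ0 + π * M / N) ?_ ?_
    (fun t => f.Fr (-Real.cos t)) (fun t => f.Fp (-Real.cos t)) ?_ ?_ (P.comp L) (Q.comp L)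
    (hdegc P hPd) (hdegc Q hQd) ?_ _ ?_
  · exact hPD.1
  · have : 10 * (θ0 + π * M / N - (θ0 - π * M / N)) = π * (20 * M / N) := by ring
    rw [this]
    have h20 : 20 * M / N < 1 := by rw [div_lt_one hNp]; exact w3
    calc π * (20 * M / N) < π * 1 := mul_lt_mul_of_pos_left h20 hpi0
      _ = π := mul_one _
  · intro x hx
    have hx' : |x - θ0| ≤ δ / 32 := by
      rw [abs_le]; constructor <;> linarith [hx.1, hx.2]
    exact (hin x hx').2.2.2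
  · intro x hx
    have hx' : |x - θ0| ≤ δ / 32 := by
      rw [abs_le]; constructor <;> linarith [hx.1, hx.2]
    obtain ⟨q1, q2, q3, _⟩ := hin x hx'
    exact Fr_hasDerivAt f x q1 q2 q3
  · intro x hx
    have hx' : |x - θ0| ≤ δ / 32 := by
      rw [abs_le]; constructor <;> linarith [hx.1, hx.2]
    obtain ⟨q1, q2, q3, q4, q5, q6⟩ := hin x hx'
    exact Fp_hasDerivAt f x q1 q2 q4 q5 q6
  · rcases hPQ with hP | hQ
    · exact Or.inl (hne P hP)
    · exact Or.inr (hne Q hQ)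
  · intro z hz
    rw [Finset.mem_image] at hz
    obtain ⟨j, hj, rfl⟩ := hz
    obtain ⟨hj1, hj2⟩ := hrel j hj
    rw [abs_lt] at hj1
    refine ⟨⟨by linarith [hj1.1], by linarith [hj1.2]⟩, ?_⟩
    rw [eval_comp, eval_comp, hLev]
    exact hj2

theorem window (N m h : ℕ) (hN : 1 ≤ N) (hm : 1 ≤ m) (hh : 2 ≤ h) (δ : ℝ) (hδ : 0 < δ)
    (hδ1 : δ ≤ 1) (hcond : (m : ℝ) * (h : ℝ) ^ 9 * 2 ^ 46 ≤ N * δ ^ 5)
    (f : P5) (hbd : f.b ≠ f.d) (hac : f.a ≠ f.c)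
    (j0 : ℕ) (hj0 : 0 < j0) (hj0N : j0 < N) (hPD : f.PD (ang N j0)) (hD : δ ≤ f.D (ang N j0))
    (J : Finset ℕ) (hJ : ∀ j ∈ J, j < j0 + h * m ∧ j0 < j + h * m ∧
      ∃ p q : ℕ, 1 ≤ q ∧ q ≤ 2 ^ m ∧ f.Fr (ang N j) = (p : ℝ) / q) :
    J.card ≤ 270 * m :=
  window' N m h hN hm hh δ hδ hδ1 hcond f (N_ne_zero f hPD.1 hbd hac) j0 hj0 hj0N hPD hD J hJ

end Pool.Agent.RSD
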