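import Mathlib
import Pool.Agent.RSD.Defs
import Pool.Agent.RSD.E.E2

set_option autoImplicit false

/-! # [RSD-E3] all windows -/

open Real

namespace Pool.Agent.RSD

/-- **[RSD-E3]** Partition `J` by `j / (h m)` (at most `N/(h m) + 1` blocks,
`Finset.card_eq_sum_card_fiberwise` / `Finset.card_le_mul_card_image`); a nonempty block contains
some `j₀`, all its `j` satisfy `|j - j₀| < h m`, so `window` bounds its cardinality by `270 m`. -/
theorem count_good' (N m h : ℕ) (hN : 1 ≤ N) (hm : 1 ≤ m) (hh : 2 ≤ h) (δ : ℝ) (hδ : 0 < δ)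
    (hδ1 : δ ≤ 1) (hcond : (m : ℝ) * (h : ℝ) ^ 9 * 2 ^ 46 ≤ N * δ ^ 5)
    (f : P5) (hNz : ∃ g, f.N g ≠ 0)
    (J : Finset ℕ) (hJ : ∀ j ∈ J, 0 < j ∧ j < N ∧ f.PD (ang N j) ∧ δ ≤ f.D (ang N j) ∧
      ∃ p q : ℕ, 1 ≤ q ∧ q ≤ 2 ^ m ∧ f.Fr (ang N j) = (p : ℝ) / q) :
    (J.card : ℝ) ≤ ((N : ℝ) / (h * m) + 1) * (270 * m) := by
  classical
  have hhm : 0 < h * m := by positivity
  have hNp : (0 : ℝ) < N := by exact_mod_cast hN
  -- blocks
  have hfib := Finset.card_eq_sum_card_fiberwise (s := J) (f := fun j => j / (h * m))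
    (t := Finset.range (N / (h * m) + 1)) (by
      intro j hj
      have hj' := (hJ j (Finset.mem_coe.mp hj)).2.1
      refine Finset.mem_coe.mpr (Finset.mem_range.mpr ?_)
      exact Nat.lt_succ_of_le (Nat.div_le_div_right hj'.le))
  have hone : ∀ k ∈ Finset.range (N / (h * m) + 1),
      (J.filter (fun j => j / (h * m) = k)).card ≤ 270 * m := by
    intro k _
    rcases (J.filter (fun j => j / (h * m) = k)).eq_empty_or_nonempty with he | ⟨j0, hj0⟩
    · rw [he, Finset.card_empty]; exact Nat.zero_le _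
    · have hj0' := Finset.mem_filter.mp hj0
      obtain ⟨p1, p2, p3, p4, _⟩ := hJ j0 hj0'.1
      refine window' N m h hN hm hh δ hδ hδ1 hcond f hNz j0 p1 p2 p3 p4 _ ?_
      intro j hj
      have hj' := Finset.mem_filter.mp hj
      obtain ⟨q1, q2, q3, q4, q5⟩ := hJ j hj'.1
      have e1 : j / (h * m) = k := hj'.2
      have e2 : j0 / (h * m) = k := hj0'.2
      have m1 := Nat.div_add_mod j (h * m)
      have m2 := Nat.div_add_mod j0 (h * m)
      have l1 := Nat.mod_lt j hhm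
      have l2 := Nat.mod_lt j0 hhm
      rw [e1] at m1
      rw [e2] at m2
      refine ⟨by omega, by omega, q5⟩
  have hle : J.card ≤ (N / (h * m) + 1) * (270 * m) := by
    rw [hfib]
    calc ∑ k ∈ Finset.range (N / (h * m) + 1), (J.filter (fun j => j / (h * m) = k)).card
        ≤ ∑ _k ∈ Finset.range (N / (h * m) + 1), 270 * m := Finset.sum_le_sum hone
      _ = (N / (h * m) + 1) * (270 * m) := by
        rw [Finset.sum_const, Finset.card_range, smul_eq_mul]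
  have hcast : (J.card : ℝ) ≤ (((N / (h * m) : ℕ) : ℝ) + 1) * (270 * m) := by exact_mod_cast hle
  refine le_trans hcast (mul_le_mul_of_nonneg_right ?_ (by positivity))
  have h1 : ((N / (h * m) : ℕ) : ℝ) ≤ (N : ℝ) / ((h * m : ℕ) : ℝ) := Nat.cast_div_le
  push_cast at h1
  linarith

theorem count_good (N m h : ℕ) (hN : 1 ≤ N) (hm : 1 ≤ m) (hh : 2 ≤ h) (δ : ℝ) (hδ : 0 < δ)
    (hδ1 : δ ≤ 1) (hcond : (m : ℝ) * (h : ℝ) ^ 9 * 2 ^ 46 ≤ N * δ ^ 5)
    (f : P5) (hbd : f.b ≠ f.d) (hac : f.a ≠ f.c)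
    (J : Finset ℕ) (hJ : ∀ j ∈ J, 0 < j ∧ j < N ∧ f.PD (ang N j) ∧ δ ≤ f.D (ang N j) ∧
      ∃ p q : ℕ, 1 ≤ q ∧ q ≤ 2 ^ m ∧ f.Fr (ang N j) = (p : ℝ) / q) :
    (J.card : ℝ) ≤ ((N : ℝ) / (h * m) + 1) * (270 * m) := by
  rcases J.eq_empty_or_nonempty with he | ⟨j, hj⟩
  · rw [he, Finset.card_empty, Nat.cast_zero]; positivity
  · exact count_good' N m h hN hm hh δ hδ hδ1 hcond f
      (N_ne_zero f (hJ j hj).2.2.1.1 hbd hac) J hJ

end Pool.Agent.RSD
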