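import Mathlib
import Pool.Agent.RSD.Defs

set_option autoImplicit false

/-! # [RSD-E4] elementary counting of indices -/

open Real

namespace Pool.Agent.RSD

/-- **[RSD-E4a]** spacing: for `i ≤ j ≤ N`, `ang N j - ang N i ≥ 2 ((j - i)/N)²`.

Proof. `cos x - cos y = 2 sin((x+y)/2) sin((y-x)/2)`, `x = πi/N ≤ y = πj/N`; with
`u = (y-x)/2 ∈ [0, π/2]`, `(x+y)/2 ∈ [u, π - u]`, so `sin((x+y)/2) ≥ sin u`, and
`sin u ≥ (2/π) u = (j-i)/N` (`Real.mul_le_sin`). -/
theorem ang_spacing (N i j : ℕ) (hN : 1 ≤ N) (hij : i ≤ j) (hj : j ≤ N) :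
    2 * (((j : ℝ) - i) / N) ^ 2 ≤ ang N j - ang N i := by
  have hNp : (0 : ℝ) < N := by exact_mod_cast hN
  have hpi := Real.pi_pos
  have hij' : (i : ℝ) ≤ j := by exact_mod_cast hij
  have hj' : (j : ℝ) ≤ N := by exact_mod_cast hj
  have hi0 : (0 : ℝ) ≤ i := Nat.cast_nonneg i
  set x : ℝ := π * i / N with hx
  set y : ℝ := π * j / N with hy
  have hx0 : 0 ≤ x := by positivity
  have hxy : x ≤ y := by
    rw [hx, hy]
    exact div_le_div_of_nonneg_right (mul_le_mul_of_nonneg_left hij' hpi.le) hNp.le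
  have hypi : y ≤ π := by
    rw [hy, div_le_iff₀ hNp]
    exact mul_le_mul_of_nonneg_left hj' hpi.le
  have hdiff : ang N j - ang N i = 2 * Real.sin ((x + y) / 2) * Real.sin ((y - x) / 2) := by
    unfold ang
    rw [← hx, ← hy]
    have h1 := Real.cos_sub_cos x y
    have h2 : Real.sin ((x - y) / 2) = -Real.sin ((y - x) / 2) := by
      rw [← Real.sin_neg]; congr 1; ring
    rw [h2] at h1
    linarith
  set u : ℝ := (y - x) / 2 with hu
  have hu0 : 0 ≤ u := by rw [hu]; linarith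
  have hu1 : u ≤ π / 2 := by rw [hu]; linarith
  have hsu : ((j : ℝ) - i) / N ≤ Real.sin u := by
    have h1 := Real.mul_le_sin hu0 hu1
    have h2 : 2 / π * u = ((j : ℝ) - i) / N := by
      rw [hu, hx, hy]; field_simp
    rwa [h2] at h1
  have hsu0 : 0 ≤ ((j : ℝ) - i) / N := div_nonneg (by linarith) hNp.le
  have hsv : Real.sin u ≤ Real.sin ((x + y) / 2) := by
    by_cases hv : (x + y) / 2 ≤ π / 2
    · exact Real.sin_le_sin_of_le_of_le_pi_div_two (by linarith) hv (by rw [hu]; linarith)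
    · have h1 : Real.sin ((x + y) / 2) = Real.sin (π - (x + y) / 2) := (Real.sin_pi_sub _).symm
      rw [h1]
      exact Real.sin_le_sin_of_le_of_le_pi_div_two (by linarith) (by linarith)
        (by rw [hu]; linarith)
  rw [hdiff]
  have h3 : 0 ≤ Real.sin u := le_trans hsu0 hsu
  have h4 : (((j : ℝ) - i) / N) * (((j : ℝ) - i) / N) ≤ Real.sin ((x + y) / 2) * Real.sin u :=
    mul_le_mul (le_trans hsu hsv) hsu hsu0 (le_trans h3 hsv)
  nlinarith

/-- **[RSD-E4b]** indices with `ang N j` in an interval of length `τ`: at most `N √τ + 1`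
(the difference of the largest and the smallest one is `≤ N √(τ/2)`). -/
theorem count_interval (N : ℕ) (hN : 1 ≤ N) (u τ : ℝ) (hτ : 0 ≤ τ) (J : Finset ℕ)
    (hJ : ∀ j ∈ J, j < N ∧ u ≤ ang N j ∧ ang N j ≤ u + τ) :
    (J.card : ℝ) ≤ N * √τ + 1 := by
  have hNp : (0 : ℝ) < N := by exact_mod_cast hN
  rcases J.eq_empty_or_nonempty with he | hne
  · rw [he, Finset.card_empty, Nat.cast_zero]; positivity
  · set i0 := J.min' hne with hi0
    set j0 := J.max' hne with hj0
    have m1 := J.min'_mem hne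
    have m2 := J.max'_mem hne
    have hle : i0 ≤ j0 := J.min'_le_max' hne
    have hsub : J ⊆ Finset.Icc i0 j0 := by
      intro k hk
      rw [Finset.mem_Icc]
      exact ⟨J.min'_le k hk, J.le_max' k hk⟩
    have hcard := Finset.card_le_card hsub
    rw [Nat.card_Icc] at hcard
    have hcard' : (J.card : ℝ) ≤ (j0 : ℝ) - i0 + 1 := by
      have : J.card + i0 ≤ j0 + 1 := by omega
      have : (J.card : ℝ) + i0 ≤ j0 + 1 := by exact_mod_cast this
      linarith
    have h1 := ang_spacing N i0 j0 hN hle (hJ j0 m2).1.le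
    have h2 : ang N j0 - ang N i0 ≤ τ := by
      have a1 := (hJ j0 m2).2.2
      have a2 := (hJ i0 m1).2.1
      linarith
    have h3 : (((j0 : ℝ) - i0) / N) ^ 2 ≤ τ := by
      have := sq_nonneg (((j0 : ℝ) - i0) / N)
      linarith
    have h4 : ((j0 : ℝ) - i0) / N ≤ √τ := le_trans (le_abs_self _) (Real.abs_le_sqrt h3)
    rw [div_le_iff₀ hNp] at h4
    linarith

/-- **[RSD-E4c]** indices with `0 < D < δ`.

Proof. `κ = 1 - e² ≥ ε²`, `Y = κ g - k`, `k = ac + bd - bce - ade`, so `q12 = -Y` and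
`κ D = E₀² - Y²` with `E₀² = q11 q22` (identity `q11 q22 - q12² = (1-e²) D`).  From `PD`:
`0 < κ D`, so `E₀² > 0`, `|Y| < E₀`, and `(E₀ - |Y|)² ≤ (E₀-|Y|)(E₀+|Y|) = κ D < δ`, so
`E₀ - √δ < |Y| < E₀`: `g = (Y + k)/κ` lies in one of two intervals of length `√δ/κ ≤ √δ/ε²`,
which do not depend on `j`.  `count_interval` twice. (If `J` is empty there is nothing to prove;
`q11 q22 > 0` follows from one element.) -/
theorem count_small (N : ℕ) (hN : 1 ≤ N) (f : P5) (δ ε : ℝ) (hδ : 0 < δ) (hε : 0 < ε)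
    (he : ε ^ 2 ≤ 1 - f.e ^ 2) (J : Finset ℕ)
    (hJ : ∀ j ∈ J, j < N ∧ f.PD (ang N j) ∧ f.D (ang N j) < δ) :
    (J.card : ℝ) ≤ 2 * (N * √(√δ / ε ^ 2) + 1) := by
  classical
  have hε2 : 0 < ε ^ 2 := by positivity
  have hκ : 0 < 1 - f.e ^ 2 := lt_of_lt_of_le hε2 he
  have hκ1 : 1 - f.e ^ 2 ≤ 1 := by nlinarith [sq_nonneg f.e]
  set κ : ℝ := 1 - f.e ^ 2 with hκdef
  set k : ℝ := f.a * f.c + f.b * f.d - f.b * f.c * f.e - f.a * f.d * f.e with hk
  set E0 : ℝ := √(q11 f.c f.d f.e * q22 f.a f.b f.e) with hE0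
  set r : ℝ := √δ with hr
  have hr0 : 0 < r := Real.sqrt_pos.mpr hδ
  have hrr : r ^ 2 = δ := Real.sq_sqrt hδ.le
  have hτ : 0 ≤ r / ε ^ 2 := by positivity
  have hrκ : r / κ ≤ r / ε ^ 2 := div_le_div_of_nonneg_left hr0.le hε2 he
  -- the two intervals
  have hY : ∀ j ∈ J, |κ * ang N j - k| < E0 ∧ E0 - r < |κ * ang N j - k| := by
    intro j hj
    obtain ⟨_, hPD, hDδ⟩ := hJ j hj
    set g := ang N j with hg
    have hD0 : 0 < f.D g := hPD.2.2
    have hid : q11 f.c f.d f.e * q22 f.a f.b f.e - (κ * g - k) ^ 2 = κ * f.D g := by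
      rw [hκdef, hk]
      simp only [P5.D, q11, q22, qD]; ring
    have hE2 : 0 < q11 f.c f.d f.e * q22 f.a f.b f.e := by
      have := mul_pos hκ hD0
      nlinarith [sq_nonneg (κ * g - k)]
    have hE0p : 0 < E0 := Real.sqrt_pos.mpr hE2
    have hE0s : E0 ^ 2 = q11 f.c f.d f.e * q22 f.a f.b f.e := Real.sq_sqrt hE2.le
    have habs : |κ * g - k| ^ 2 = (κ * g - k) ^ 2 := sq_abs _
    have hlt : |κ * g - k| < E0 := by
      refine lt_of_pow_lt_pow_left₀ 2 hE0p.le ?_
      rw [habs, hE0s]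
      have := mul_pos hκ hD0
      linarith
    refine ⟨hlt, ?_⟩
    by_contra hcon
    push Not at hcon
    have h1 : r ≤ E0 - |κ * g - k| := by linarith
    have h2 : (E0 - |κ * g - k|) * (E0 + |κ * g - k|) = κ * f.D g := by
      rw [← hid, ← hE0s, ← habs]; ring
    have h3 : r ^ 2 ≤ (E0 - |κ * g - k|) * (E0 + |κ * g - k|) := by
      have a0 := abs_nonneg (κ * g - k)
      nlinarith
    rw [h2, hrr] at h3
    have : κ * f.D g ≤ f.D g := by nlinarith
    linarith
  have hplus := count_interval N hN ((E0 - r + k) / κ) (r / ε ^ 2) hτ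
    (J.filter (fun j => 0 ≤ κ * ang N j - k)) (by
      intro j hj
      rw [Finset.mem_filter] at hj
      obtain ⟨a1, a2⟩ := hY j hj.1
      rw [abs_of_nonneg hj.2] at a1 a2
      refine ⟨(hJ j hj.1).1, ?_, ?_⟩
      · rw [div_le_iff₀ hκ]; linarith
      · have : ang N j ≤ (E0 - r + k) / κ + r / κ := by
          rw [← add_div, le_div_iff₀ hκ]; linarith
        linarith)
  have hminus := count_interval N hN ((-E0 + k) / κ) (r / ε ^ 2) hτ
    (J.filter (fun j => ¬ 0 ≤ κ * ang N j - k)) (by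
      intro j hj
      rw [Finset.mem_filter] at hj
      obtain ⟨a1, a2⟩ := hY j hj.1
      rw [abs_of_neg (not_le.mp hj.2)] at a1 a2
      refine ⟨(hJ j hj.1).1, ?_, ?_⟩
      · rw [div_le_iff₀ hκ]; linarith
      · have : ang N j ≤ (-E0 + k) / κ + r / κ := by
          rw [← add_div, le_div_iff₀ hκ]; linarith
        linarith)
  have hsplit : (J.card : ℝ) = ((J.filter (fun j => 0 ≤ κ * ang N j - k)).card : ℝ)
      + ((J.filter (fun j => ¬ 0 ≤ κ * ang N j - k)).card : ℝ) := by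
    have := Finset.card_filter_add_card_filter_not (s := J) (fun j => 0 ≤ κ * ang N j - k)
    rw [← this]; push_cast; ring
  rw [hsplit]
  linarith

/-- **[RSD-E4d]** indices with `sin (π j/N) < ε`: at most `ε N + 2`.

Proof. `1 - ang² = sin²(πj/N)`, and `sin(πj/N) ≥ 2 min(j, N-j)/N` (`Real.mul_le_sin`, symmetry), so
`j < εN/2` or `N - j < εN/2`. -/
theorem count_sin (N : ℕ) (hN : 1 ≤ N) (ε : ℝ) (hε : 0 < ε) (J : Finset ℕ)
    (hJ : ∀ j ∈ J, j < N ∧ 1 - (ang N j) ^ 2 < ε ^ 2) :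
    (J.card : ℝ) ≤ ε * N + 2 := by
  classical
  have hNp : (0 : ℝ) < N := by exact_mod_cast hN
  have hpi := Real.pi_pos
  have hkey : ∀ j ∈ J, (j : ℝ) < ε * N / 2 ∨ (N : ℝ) - j < ε * N / 2 := by
    intro j hj
    obtain ⟨hjN, hjs⟩ := hJ j hj
    have hjN' : (j : ℝ) < N := by exact_mod_cast hjN
    have hj0 : (0 : ℝ) ≤ j := Nat.cast_nonneg j
    set x : ℝ := π * j / N with hx
    have hx0 : 0 ≤ x := by positivity
    have hxpi : x ≤ π := by
      rw [hx, div_le_iff₀ hNp]
      exact mul_le_mul_of_nonneg_left hjN'.le hpi.le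
    have hs : Real.sin x < ε := by
      have h1 : 1 - (ang N j) ^ 2 = Real.sin x ^ 2 := by
        unfold ang
        rw [← hx, neg_sq, Real.sin_sq]
      rw [h1] at hjs
      exact lt_of_pow_lt_pow_left₀ 2 hε.le hjs
    by_cases hcase : x ≤ π / 2
    · left
      have h1 := Real.mul_le_sin hx0 hcase
      have h2 : 2 / π * x = 2 * j / N := by rw [hx]; field_simp
      rw [h2] at h1
      have h3 : 2 * (j : ℝ) / N < ε := lt_of_le_of_lt h1 hs
      rw [div_lt_iff₀ hNp] at h3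
      linarith
    · right
      have h1 := Real.mul_le_sin (x := π - x) (by linarith) (by linarith)
      rw [Real.sin_pi_sub] at h1
      have h2 : 2 / π * (π - x) = 2 * ((N : ℝ) - j) / N := by rw [hx]; field_simp
      rw [h2] at h1
      have h3 : 2 * ((N : ℝ) - j) / N < ε := lt_of_le_of_lt h1 hs
      rw [div_lt_iff₀ hNp] at h3
      linarith
  set M : ℕ := ⌈ε * N / 2⌉₊ with hM
  have hMle : (M : ℝ) ≤ ε * N / 2 + 1 := (Nat.ceil_lt_add_one (by positivity)).le
  have h1 : (J.filter (fun j : ℕ => (j : ℝ) < ε * N / 2)).card ≤ M := by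
    have hsub : J.filter (fun j : ℕ => (j : ℝ) < ε * N / 2) ⊆ Finset.range M := by
      intro j hj
      rw [Finset.mem_filter] at hj
      rw [Finset.mem_range]
      exact_mod_cast lt_of_lt_of_le hj.2 (Nat.le_ceil _)
    have := Finset.card_le_card hsub
    rwa [Finset.card_range] at this
  have h2 : (J.filter (fun j : ℕ => ¬ (j : ℝ) < ε * N / 2)).card ≤ M := by
    have : (J.filter (fun j : ℕ => ¬ (j : ℝ) < ε * N / 2)).card ≤ (Finset.range M).card := by
      refine Finset.card_le_card_of_injOn (fun j => N - j) ?_ ?_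
      · intro j hj
        have hj' := Finset.mem_filter.mp (Finset.mem_coe.mp hj)
        have hjN := (hJ j hj'.1).1
        rcases hkey j hj'.1 with h | h
        · exact absurd h hj'.2
        · refine Finset.mem_coe.mpr (Finset.mem_range.mpr ?_)
          have h3 : ((N - j : ℕ) : ℝ) = (N : ℝ) - j := by
            rw [Nat.cast_sub hjN.le]
          have h4 : ((N - j : ℕ) : ℝ) < (M : ℝ) := by
            rw [h3]; exact lt_of_lt_of_le h (Nat.le_ceil _)
          exact_mod_cast h4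
      · intro j hj i hi hij
        have hjN := (hJ j (Finset.mem_filter.mp (Finset.mem_coe.mp hj)).1).1
        have hiN := (hJ i (Finset.mem_filter.mp (Finset.mem_coe.mp hi)).1).1
        have hij' : N - j = N - i := hij
        omega
    rwa [Finset.card_range] at this
  have hsplit : (J.card : ℝ) = ((J.filter (fun j : ℕ => (j : ℝ) < ε * N / 2)).card : ℝ)
      + ((J.filter (fun j : ℕ => ¬ (j : ℝ) < ε * N / 2)).card : ℝ) := by
    have := Finset.card_filter_add_card_filter_not (s := J) (fun j : ℕ => (j : ℝ) < ε * N / 2)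
    rw [← this]; push_cast; ring
  have h1' : ((J.filter (fun j : ℕ => (j : ℝ) < ε * N / 2)).card : ℝ) ≤ M := by exact_mod_cast h1
  have h2' : ((J.filter (fun j : ℕ => ¬ (j : ℝ) < ε * N / 2)).card : ℝ) ≤ M := by exact_mod_cast h2
  rw [hsplit]
  linarith

/-- **[RSD-E4e]** `ang N` is injective on `{0, ..., N}` (`Real.injOn_cos`). -/
theorem ang_inj (N i j : ℕ) (hN : 1 ≤ N) (hi : i ≤ N) (hj : j ≤ N) (h : ang N i = ang N j) :
    i = j := by
  have hNp : (0 : ℝ) < N := by exact_mod_cast hN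
  have hpi := Real.pi_pos
  have hmem : ∀ k : ℕ, k ≤ N → π * (k : ℝ) / N ∈ Set.Icc 0 π := by
    intro k hk
    have hk' : (k : ℝ) ≤ N := by exact_mod_cast hk
    refine ⟨by positivity, ?_⟩
    rw [div_le_iff₀ hNp]
    exact mul_le_mul_of_nonneg_left hk' hpi.le
  have h1 : Real.cos (π * (i : ℝ) / N) = Real.cos (π * (j : ℝ) / N) := neg_injective h
  have h2 := Real.injOn_cos (hmem i hi) (hmem j hj) h1
  have h3 : (i : ℝ) = j := by
    field_simp at h2
    exact h2
  exact_mod_cast h3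

end Pool.Agent.RSD
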