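import Mathlib

set_option autoImplicit false

/-! # [RSD-E6] choice of the parameters -/

open Real

namespace Pool.Agent.RSD

/-- **[RSD-E6]** Parameters.  `t = log B / N`, `0 < t ≤ 80^{-18}`;
`m = ⌈log B/log 2⌉`, `δ = t^{1/10}`, `ε = t^{1/80}`, `h = ⌊t^{-1/18}/40⌋`.

Proof. `2^m ≥ B`; `1 ≤ log B/log 2`, so `m ≤ 2 log B/log 2 ≤ 3 t N`
(`Real.log_two_gt_d9`).  `t^{-1/18} ≥ 80`, so `h ≥ 2`, `h ≤ t^{-1/18}/40`,
`1/h ≤ 80 t^{1/18}`.  `h⁹ ≤ t^{-1/2}/40⁹`, `m h⁹ 2^46 ≤ 3 N t^{1/2} 2^46/40⁹ ≤ N t^{1/2} = N δ⁵`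
(`3·2^46 ≤ 40⁹`).  `√δ/ε² = t^{1/20 - 1/40} = t^{1/40}` and its root is `t^{1/80}`.
`(N/(hm)+1)·270m = 270 N/h + 270 m ≤ 21600 N t^{1/18} + 810 N t ≤ 22410 N t^{1/80}`; the remaining
terms are `≤ 3 N t^{1/80} + 6` times `N⁵`, and `1 ≤ N t/log 2 ≤ 2 N t^{1/80}`. -/
theorem param_choice (N : ℕ) (hN : 1 ≤ N) (B : ℝ) (hB : 2 ≤ B)
    (ht : (80 : ℝ) ^ 18 * (Real.log B / N) ≤ 1) :
    ∃ (m h : ℕ) (δ ε : ℝ), 1 ≤ m ∧ 2 ≤ h ∧ 0 < δ ∧ δ ≤ 1 ∧ 0 < ε ∧
      (m : ℝ) * (h : ℝ) ^ 9 * 2 ^ 46 ≤ N * δ ^ 5 ∧ B ≤ 2 ^ m ∧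
      (N : ℝ) ^ 5 * (((N : ℝ) / (h * m) + 1) * (270 * m) + 2 * (N * √(√δ / ε ^ 2) + 1))
        + 2 * (N : ℝ) ^ 5 + (N : ℝ) ^ 5 * (ε * N + 2)
        ≤ 10 ^ 5 * (N : ℝ) ^ 6 * (Real.log B / N) ^ ((1 : ℝ) / 80) := by
  have hNp : (0 : ℝ) < N := by exact_mod_cast hN
  have hlog2 : (0.6931471803 : ℝ) < Real.log 2 := Real.log_two_gt_d9
  have hlog2p : 0 < Real.log 2 := by linarith
  have hlogB : Real.log 2 ≤ Real.log B := Real.log_le_log (by norm_num) hB
  have hlogBp : 0 < Real.log B := lt_of_lt_of_le hlog2p hlogB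
  set t : ℝ := Real.log B / N with htdef
  have ht0 : 0 < t := div_pos hlogBp hNp
  have htN : t * N = Real.log B := by rw [htdef]; field_simp
  have ht1 : t ≤ 1 := by
    have : (1 : ℝ) ≤ (80 : ℝ) ^ 18 := one_le_pow₀ (by norm_num)
    nlinarith
  -- roots
  set v : ℝ := t ^ ((1 : ℝ) / 80) with hv
  set s : ℝ := t ^ ((1 : ℝ) / 18) with hs
  have hv0 : 0 < v := Real.rpow_pos_of_pos ht0 _
  have hs0 : 0 < s := Real.rpow_pos_of_pos ht0 _
  have hv1 : v ≤ 1 := Real.rpow_le_one ht0.le ht1 (by norm_num)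
  have hv80 : v ^ 80 = t := by
    rw [hv, ← Real.rpow_natCast, ← Real.rpow_mul ht0.le]; norm_num
  have hs18 : s ^ 18 = t := by
    rw [hs, ← Real.rpow_natCast, ← Real.rpow_mul ht0.le]; norm_num
  have hvs : v ^ 40 = s ^ 9 := by
    rw [hv, hs, ← Real.rpow_natCast, ← Real.rpow_mul ht0.le, ← Real.rpow_natCast,
      ← Real.rpow_mul ht0.le]; norm_num
  have hsv : s ≤ v := Real.rpow_le_rpow_of_exponent_ge ht0 ht1 (by norm_num)
  have htv : t ≤ v := by
    calc t = v ^ 80 := hv80.symm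
      _ ≤ v ^ 1 := pow_le_pow_of_le_one hv0.le hv1 (by norm_num)
      _ = v := pow_one v
  have h80s : 80 * s ≤ 1 := by
    by_contra hcon
    push Not at hcon
    have h1 : (1 : ℝ) < (80 * s) ^ 18 := one_lt_pow₀ hcon (by norm_num)
    rw [mul_pow, hs18] at h1
    linarith
  -- m
  set m : ℕ := ⌈Real.log B / Real.log 2⌉₊ with hm
  have hx1 : 1 ≤ Real.log B / Real.log 2 := by rw [le_div_iff₀ hlog2p]; linarith
  have hmge : Real.log B / Real.log 2 ≤ m := Nat.le_ceil _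
  have hm1 : 1 ≤ m := by
    have : (1 : ℝ) ≤ m := le_trans hx1 hmge
    exact_mod_cast this
  have hmle : (m : ℝ) ≤ 3 * t * N := by
    have h1 : (m : ℝ) < Real.log B / Real.log 2 + 1 := Nat.ceil_lt_add_one (by positivity)
    have h2 : Real.log B / Real.log 2 ≤ 1.5 * Real.log B := by
      rw [div_le_iff₀ hlog2p]
      nlinarith
    have h3 : 3 * t * N = 3 * Real.log B := by rw [mul_assoc, htN]
    linarith
  have hB2m : B ≤ 2 ^ m := by
    have hBp : 0 < B := by linarith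
    have h1 : Real.log B ≤ m * Real.log 2 := by
      rwa [div_le_iff₀ hlog2p] at hmge
    calc B = Real.exp (Real.log B) := (Real.exp_log hBp).symm
      _ ≤ Real.exp (m * Real.log 2) := Real.exp_le_exp.mpr h1
      _ = 2 ^ m := by
        rw [mul_comm, Real.exp_mul, Real.exp_log (by norm_num : (0 : ℝ) < 2), Real.rpow_natCast]
  -- h
  set h : ℕ := ⌊1 / (40 * s)⌋₊ with hh
  have hX : 2 ≤ 1 / (40 * s) := by
    rw [le_div_iff₀ (by positivity)]; linarith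
  have hh2 : 2 ≤ h := by
    rw [hh]
    exact Nat.le_floor (by exact_mod_cast hX)
  have hhp : (0 : ℝ) < h := by
    have : 0 < h := by omega
    exact_mod_cast this
  have hhle : (h : ℝ) ≤ 1 / (40 * s) := Nat.floor_le (by positivity)
  have hhge : 1 / (80 * s) ≤ h := by
    have h1 : 1 / (40 * s) < h + 1 := Nat.lt_floor_add_one _
    have h2 : 1 / (40 * s) = 2 * (1 / (80 * s)) := by field_simp; norm_num
    rw [h2] at h1 hX
    linarith
  have hinv : 1 / (h : ℝ) ≤ 80 * s := by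
    rw [div_le_iff₀ hhp]
    rw [div_le_iff₀ (by positivity)] at hhge
    linarith
  refine ⟨m, h, v ^ 8, v, hm1, hh2, by positivity, pow_le_one₀ hv0.le hv1, hv0, ?_, hB2m, ?_⟩
  · -- the condition
    have h9 : (h : ℝ) ^ 9 ≤ 1 / (40 ^ 9 * s ^ 9) := by
      calc (h : ℝ) ^ 9 ≤ (1 / (40 * s)) ^ 9 := pow_le_pow_left₀ hhp.le hhle 9
        _ = 1 / (40 ^ 9 * s ^ 9) := by rw [div_pow, mul_pow, one_pow]
    have hδ5 : (v ^ 8) ^ 5 = s ^ 9 := by rw [← pow_mul, ← hvs]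
    rw [hδ5]
    calc (m : ℝ) * (h : ℝ) ^ 9 * 2 ^ 46 ≤ (3 * t * N) * (1 / (40 ^ 9 * s ^ 9)) * 2 ^ 46 := by
          refine mul_le_mul_of_nonneg_right ?_ (by positivity)
          exact mul_le_mul hmle h9 (by positivity) (by positivity)
      _ = (N * s ^ 9) * (3 * 2 ^ 46 / 40 ^ 9) := by
          rw [← hs18]
          field_simp
      _ ≤ (N * s ^ 9) * 1 := by
          refine mul_le_mul_of_nonneg_left ?_ (by positivity)
          norm_num
      _ = N * s ^ 9 := mul_one _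
  · -- the final bound
    have hsq1 : √(v ^ 8) = v ^ 4 := by
      rw [show v ^ 8 = (v ^ 4) ^ 2 by ring]
      exact Real.sqrt_sq (by positivity)
    have hsq2 : √(√(v ^ 8) / v ^ 2) = v := by
      rw [hsq1, show v ^ 4 / v ^ 2 = v ^ 2 by field_simp]
      exact Real.sqrt_sq hv0.le
    rw [hsq2]
    have hmp : (0 : ℝ) < m := by exact_mod_cast hm1
    have e1 : ((N : ℝ) / (h * m) + 1) * (270 * m) = 270 * N * (1 / h) + 270 * m := by
      field_simp
    have e2 : 270 * (N : ℝ) * (1 / h) ≤ 21600 * (N * v) := by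
      calc 270 * (N : ℝ) * (1 / h) ≤ 270 * N * (80 * s) :=
            mul_le_mul_of_nonneg_left hinv (by positivity)
        _ = 21600 * (N * s) := by ring
        _ ≤ 21600 * (N * v) := by
            refine mul_le_mul_of_nonneg_left ?_ (by norm_num)
            exact mul_le_mul_of_nonneg_left hsv hNp.le
    have e3 : 270 * (m : ℝ) ≤ 810 * (N * v) := by
      calc 270 * (m : ℝ) ≤ 270 * (3 * t * N) := mul_le_mul_of_nonneg_left hmle (by norm_num)
        _ = 810 * (N * t) := by ring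
        _ ≤ 810 * (N * v) := by
            refine mul_le_mul_of_nonneg_left ?_ (by norm_num)
            exact mul_le_mul_of_nonneg_left htv hNp.le
    have e4 : 1 ≤ 1.5 * (N * v) := by
      have h1 : (N : ℝ) * t ≤ N * v := mul_le_mul_of_nonneg_left htv hNp.le
      have h2 : (N : ℝ) * t = Real.log B := by rw [mul_comm, htN]
      linarith
    have e5 : ((N : ℝ) / (h * m) + 1) * (270 * m) + 2 * (N * v + 1) + 2 + (v * N + 2)
        ≤ 10 ^ 5 * (N * v) := by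
      rw [e1]
      have : v * N = N * v := mul_comm _ _
      rw [this]
      nlinarith
    have hN5 : (0 : ℝ) ≤ (N : ℝ) ^ 5 := by positivity
    calc (N : ℝ) ^ 5 * (((N : ℝ) / (h * m) + 1) * (270 * m) + 2 * (N * v + 1))
          + 2 * (N : ℝ) ^ 5 + (N : ℝ) ^ 5 * (v * N + 2)
        = (N : ℝ) ^ 5 * (((N : ℝ) / (h * m) + 1) * (270 * m) + 2 * (N * v + 1) + 2
            + (v * N + 2)) := by ring
      _ ≤ (N : ℝ) ^ 5 * (10 ^ 5 * (N * v)) := mul_le_mul_of_nonneg_left e5 hN5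
      _ = 10 ^ 5 * (N : ℝ) ^ 6 * v := by ring

end Pool.Agent.RSD
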