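import Mathlib
import Pool.Agent.RSD.Defs
import Pool.Agent.RSD.E.E3
import Pool.Agent.RSD.E.E4
import Pool.Agent.RSD.E.E6

set_option autoImplicit false

/-! # [RSD-E9] one-parameter families -/

open Real

namespace Pool.Agent.RSD

theorem e9_trivial (N : ℕ) (J : Finset ℕ) (hJ : ∀ j ∈ J, j < N) : (J.card : ℝ) ≤ N := by
  have h : J ⊆ Finset.range N := fun j hj => Finset.mem_range.mpr (hJ j hj)
  have h2 := Finset.card_le_card h
  rw [Finset.card_range] at h2
  exact_mod_cast h2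

/-- **[RSD-E9]** one-parameter families: five Gram entries are fixed (arbitrary real numbers,
generic), the sixth dihedral angle is `π j/N`. -/
theorem family_bound (f : P5) (hNz : ∃ g, f.N g ≠ 0) (he : f.e ^ 2 < 1)
    (N : ℕ) (hN : 1 ≤ N) (B : ℝ) (hB : 2 ≤ B) (J : Finset ℕ)
    (hJ : ∀ j ∈ J, 0 < j ∧ j < N ∧ f.PD (ang N j) ∧
      ∃ p q : ℕ, 1 ≤ q ∧ (q : ℝ) ≤ B ∧ f.Fr (ang N j) = (p : ℝ) / q) :
    (J.card : ℝ) ≤ 10 ^ 5 * (N : ℝ) * (Real.log B / N) ^ ((1 : ℝ) / 80) / √(1 - f.e ^ 2) := by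
  have hNpos : (0 : ℝ) < N := by exact_mod_cast hN
  have hlog : 0 < Real.log B := Real.log_pos (by linarith)
  set t : ℝ := Real.log B / N with ht
  have htpos : 0 < t := div_pos hlog hNpos
  have hκ : 0 < 1 - f.e ^ 2 := by linarith
  have hκ1 : 1 - f.e ^ 2 ≤ 1 := by nlinarith [sq_nonneg f.e]
  have hs0 : 0 < √(1 - f.e ^ 2) := Real.sqrt_pos.mpr hκ
  have hs1 : √(1 - f.e ^ 2) ≤ 1 := by
    rw [Real.sqrt_le_one]; exact hκ1
  have htp : 0 < t ^ ((1 : ℝ) / 80) := Real.rpow_pos_of_pos htpos _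
  have hcard : (J.card : ℝ) ≤ N := e9_trivial N J (fun j hj => (hJ j hj).2.1)
  -- it suffices to bound by the numerator when it is large
  have key : (J.card : ℝ) * √(1 - f.e ^ 2) ≤ 10 ^ 5 * (N : ℝ) * t ^ ((1 : ℝ) / 80) := by
    by_cases hsmall : (80 : ℝ) ^ 18 * t ≤ 1
    · obtain ⟨m, h, δ, ε, hm, hh, hδ, hδ1, hε, hcond, hBm, htot⟩ := param_choice N hN B hB hsmall
      have hm' : (0 : ℝ) < m := by exact_mod_cast hm
      have hh' : (0 : ℝ) < h := by
        have : 0 < h := by omega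
        exact_mod_cast this
      have hN5 : (0 : ℝ) < (N : ℝ) ^ 5 := by positivity
      -- split the total inequality
      have hX0 : 0 ≤ ((N : ℝ) / (h * m) + 1) * (270 * m) + 2 * (N * √(√δ / ε ^ 2) + 1) := by
        positivity
      have hX : ((N : ℝ) / (h * m) + 1) * (270 * m) + 2 * (N * √(√δ / ε ^ 2) + 1)
          + (ε * N + 2) + 2 ≤ 10 ^ 5 * (N : ℝ) * t ^ ((1 : ℝ) / 80) := by
        have e1 : (N : ℝ) ^ 5 * (((N : ℝ) / (h * m) + 1) * (270 * m) + 2 * (N * √(√δ / ε ^ 2) + 1)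
          + (ε * N + 2) + 2) ≤ (N : ℝ) ^ 5 * (10 ^ 5 * (N : ℝ) * t ^ ((1 : ℝ) / 80)) := by
          calc (N : ℝ) ^ 5 * (((N : ℝ) / (h * m) + 1) * (270 * m) + 2 * (N * √(√δ / ε ^ 2) + 1)
                + (ε * N + 2) + 2)
              = (N : ℝ) ^ 5 * (((N : ℝ) / (h * m) + 1) * (270 * m) + 2 * (N * √(√δ / ε ^ 2) + 1))
                + 2 * (N : ℝ) ^ 5 + (N : ℝ) ^ 5 * (ε * N + 2) := by ring
            _ ≤ 10 ^ 5 * (N : ℝ) ^ 6 * t ^ ((1 : ℝ) / 80) := htot
            _ = (N : ℝ) ^ 5 * (10 ^ 5 * (N : ℝ) * t ^ ((1 : ℝ) / 80)) := by ring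
        exact le_of_mul_le_mul_left e1 hN5
      by_cases hcase : ε ^ 2 ≤ 1 - f.e ^ 2
      · -- split J
        have hgood := count_good' N m h hN hm hh δ hδ hδ1 hcond f hNz
          (J.filter (fun j => δ ≤ f.D (ang N j))) (by
            intro j hj
            rw [Finset.mem_filter] at hj
            obtain ⟨hj1, hj2⟩ := hj
            obtain ⟨h1, h2, h3, p, q, hq1, hq2, hq3⟩ := hJ j hj1
            refine ⟨h1, h2, h3, hj2, p, q, hq1, ?_, hq3⟩
            have : (q : ℝ) ≤ 2 ^ m := le_trans hq2 hBm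
            exact_mod_cast this)
        have hsm := count_small N hN f δ ε hδ hε hcase
          (J.filter (fun j => ¬ δ ≤ f.D (ang N j))) (by
            intro j hj
            rw [Finset.mem_filter] at hj
            obtain ⟨hj1, hj2⟩ := hj
            obtain ⟨h1, h2, h3, _⟩ := hJ j hj1
            exact ⟨h2, h3, not_le.mp hj2⟩)
        have hsplit : (J.card : ℝ) = ((J.filter (fun j => δ ≤ f.D (ang N j))).card : ℝ)
            + ((J.filter (fun j => ¬ δ ≤ f.D (ang N j))).card : ℝ) := by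
          have := Finset.card_filter_add_card_filter_not (s := J) (fun j => δ ≤ f.D (ang N j))
          rw [← this]; push_cast; ring
        have hJX : (J.card : ℝ) ≤ 10 ^ 5 * (N : ℝ) * t ^ ((1 : ℝ) / 80) := by
          have : 0 ≤ ε * N + 2 := by positivity
          linarith
        calc (J.card : ℝ) * √(1 - f.e ^ 2) ≤ (J.card : ℝ) * 1 :=
              mul_le_mul_of_nonneg_left hs1 (Nat.cast_nonneg _)
          _ = (J.card : ℝ) := mul_one _
          _ ≤ _ := hJX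
      · -- √κ < ε
        have hlt : √(1 - f.e ^ 2) < ε := by
          rw [Real.sqrt_lt' hε]; exact not_le.mp hcase
        have hεN : ε * N ≤ 10 ^ 5 * (N : ℝ) * t ^ ((1 : ℝ) / 80) := by linarith
        calc (J.card : ℝ) * √(1 - f.e ^ 2) ≤ N * ε :=
              mul_le_mul hcard hlt.le hs0.le hNpos.le
          _ = ε * N := by ring
          _ ≤ _ := hεN
    · -- trivial range
      have hbig : (1 : ℝ) ≤ ((80 : ℝ) ^ 18 * t) ^ ((1 : ℝ) / 80) :=
        Real.one_le_rpow (not_le.mp hsmall).le (by norm_num)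
      rw [Real.mul_rpow (by positivity) htpos.le] at hbig
      have h80 : ((80 : ℝ) ^ 18) ^ ((1 : ℝ) / 80) ≤ 80 := by
        rw [← Real.rpow_natCast, ← Real.rpow_mul (by norm_num)]
        calc (80 : ℝ) ^ (((18 : ℕ) : ℝ) * ((1 : ℝ) / 80)) ≤ (80 : ℝ) ^ (1 : ℝ) := by
              apply Real.rpow_le_rpow_of_exponent_le (by norm_num)
              norm_num
          _ = 80 := Real.rpow_one _
      have h1 : (1 : ℝ) ≤ 80 * t ^ ((1 : ℝ) / 80) :=
        le_trans hbig (mul_le_mul_of_nonneg_right h80 htp.le)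
      calc (J.card : ℝ) * √(1 - f.e ^ 2) ≤ N * 1 :=
            mul_le_mul hcard hs1 hs0.le hNpos.le
        _ ≤ N * (80 * t ^ ((1 : ℝ) / 80)) := mul_le_mul_of_nonneg_left h1 hNpos.le
        _ ≤ 10 ^ 5 * (N : ℝ) * t ^ ((1 : ℝ) / 80) := by
          have : 0 ≤ (N : ℝ) * t ^ ((1 : ℝ) / 80) := by positivity
          nlinarith
  rw [le_div_iff₀ hs0]
  exact key

end Pool.Agent.RSD
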