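import Mathlib
import Pool.Agent.RSD.Defs
import Pool.Agent.RSD.C.C12
import Pool.Agent.RSD.D.D6
import Pool.Agent.RSD.D.D7
import Pool.Agent.RSD.D.D10
import Pool.Agent.RSD.E.E9

set_option autoImplicit false

/-! # [RSD-E10] one-parameter families in terms of dihedral angles -/

open Real

namespace Pool.Agent.RSD

/-- `n` is linearly independent and the interior dihedral angles of the spherical tetrahedron
`{x ∈ S³ : ⟪n i, x⟫ ≥ 0 for all i}` are `α e`; the six edges (pairs of faces) are numbered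
`0 = {0,1}, 1 = {0,2}, 2 = {0,3}, 3 = {1,2}, 4 = {1,3}, 5 = {2,3}`. -/
def HasDihedral (α : Fin 6 → ℝ) (n : Fin 4 → E4) : Prop :=
  LinearIndependent ℝ n ∧
  π - InnerProductGeometry.angle (n 0) (n 1) = α 0 ∧
  π - InnerProductGeometry.angle (n 0) (n 2) = α 1 ∧
  π - InnerProductGeometry.angle (n 0) (n 3) = α 2 ∧
  π - InnerProductGeometry.angle (n 1) (n 2) = α 3 ∧
  π - InnerProductGeometry.angle (n 1) (n 3) = α 4 ∧
  π - InnerProductGeometry.angle (n 2) (n 3) = α 5

/-- the volume is a fraction `p/q` of the volume of `S³` with `1 ≤ q ≤ B` -/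
def RatVol (B : ℝ) (n : Fin 4 → E4) : Prop :=
  ∃ p q : ℕ, 1 ≤ q ∧ (q : ℝ) ≤ B ∧ volFrac n = (p : ℝ) / q

theorem e10_ne (n : Fin 4 → E4) (hn : LinearIndependent ℝ n) (i : Fin 4) : n i ≠ 0 := hn.ne_zero i

/-- angles of independent vectors are in the open interval `(0, π)` -/
theorem e10_angle (n : Fin 4 → E4) (hn : LinearIndependent ℝ n) (i j : Fin 4) (hij : i ≠ j) :
    0 < InnerProductGeometry.angle (n i) (n j) ∧ InnerProductGeometry.angle (n i) (n j) < π := by
  have hpair : LinearIndependent ℝ ![n i, n j] := by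
    have hinj : Function.Injective (![i, j] : Fin 2 → Fin 4) := by
      intro a b hab
      fin_cases a <;> fin_cases b <;> simp_all
    have h2 := hn.comp ![i, j] hinj
    have h3 : n ∘ ![i, j] = ![n i, n j] := by
      funext k
      fin_cases k <;> rfl
    rwa [h3] at h2
  constructor
  · rcases (InnerProductGeometry.angle_nonneg (n i) (n j)).lt_or_eq with h | h
    · exact h
    · exfalso
      obtain ⟨_, r, hr, hrr⟩ := InnerProductGeometry.angle_eq_zero_iff.mp h.symm
      rw [LinearIndependent.pair_iff] at hpair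
      have := hpair r (-1) (by rw [hrr]; module)
      exact absurd this.2 (by norm_num)
  · rcases (InnerProductGeometry.angle_le_pi (n i) (n j)).lt_or_eq with h | h
    · exact h
    · exfalso
      obtain ⟨_, r, hr, hrr⟩ := InnerProductGeometry.angle_eq_pi_iff.mp h
      rw [LinearIndependent.pair_iff] at hpair
      have := hpair r (-1) (by rw [hrr]; module)
      exact absurd this.2 (by norm_num)

/-- normalisation -/
theorem e10_gram (f : P5) (g : ℝ) (α : Fin 6 → ℝ) (n : Fin 4 → E4) (h : HasDihedral α n)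
    (h0 : g = -Real.cos (α 0)) (h1 : f.a = -Real.cos (α 1)) (h2 : f.b = -Real.cos (α 2))
    (h3 : f.c = -Real.cos (α 3)) (h4 : f.d = -Real.cos (α 4)) (h5 : f.e = -Real.cos (α 5)) :
    ∃ n' : Fin 4 → E4, IsGram f g n' ∧ LinearIndependent ℝ n' ∧ volFrac n' = volFrac n := by
  obtain ⟨hn, e0, e1, e2, e3, e4, e5⟩ := h
  have hpos : ∀ i, 0 < ‖n i‖ := fun i => norm_pos_iff.mpr (hn.ne_zero i)
  have hin : ∀ i j, inner ℝ (‖n i‖⁻¹ • n i) (‖n j‖⁻¹ • n j)
      = Real.cos (InnerProductGeometry.angle (n i) (n j)) := by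
    intro i j
    rw [InnerProductGeometry.cos_angle, real_inner_smul_left, real_inner_smul_right]
    have hi := (hpos i).ne'
    have hj := (hpos j).ne'
    field_simp
  have hcos : ∀ x y : ℝ, π - x = y → Real.cos x = -Real.cos y := by
    intro x y hxy
    rw [← hxy, Real.cos_pi_sub, neg_neg]
  refine ⟨fun i => ‖n i‖⁻¹ • n i, ?_, ?_, ?_⟩
  · constructor
    · intro i
      rw [norm_smul, norm_inv, norm_norm, inv_mul_cancel₀ (hpos i).ne']
    · rw [hin, hcos _ _ e0, h0]
    · rw [hin, hcos _ _ e1, h1]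
    · rw [hin, hcos _ _ e2, h2]
    · rw [hin, hcos _ _ e3, h3]
    · rw [hin, hcos _ _ e4, h4]
    · rw [hin, hcos _ _ e5, h5]
  · exact hn.units_smul (fun i => Units.mk0 (‖n i‖⁻¹) (inv_ne_zero (hpos i).ne'))
  · unfold volFrac
    have hset : {x : E4 | ‖x‖ ≤ 1 ∧ ∀ i : Fin 4, 0 ≤ inner ℝ (‖n i‖⁻¹ • n i) x}
        = {x : E4 | ‖x‖ ≤ 1 ∧ ∀ i : Fin 4, 0 ≤ inner ℝ (n i) x} := by
      ext x
      simp only [Set.mem_setOf_eq]
      refine and_congr_right (fun _ => forall_congr' (fun i => ?_))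
      rw [real_inner_smul_left]
      constructor
      · intro h
        have h' := mul_nonneg (hpos i).le h
        rwa [← mul_assoc, mul_inv_cancel₀ (hpos i).ne', one_mul] at h'
      · intro h
        exact mul_nonneg (inv_nonneg.mpr (hpos i).le) h
    rw [hset]

/-- the exceptional one-parameter families: `α 0, ..., α 4` are the dihedral angles at the edges
`{0,2}, {0,3}, {1,2}, {1,3}, {2,3}`; the angle at the edge `{0,1}` varies. -/
def Exceptional (α : Fin 5 → ℝ) : Prop :=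
  (Real.cos (α 4) = 0 ∧
    Real.cos (α 1) * Real.cos (α 2) + Real.cos (α 0) * Real.cos (α 3) = 0 ∧
    Real.cos (α 0) * Real.cos (α 1) + Real.cos (α 2) * Real.cos (α 3) = 0) ∨
  (Real.cos (α 0) = 0 ∧ Real.cos (α 1) = 0 ∧ Real.cos (α 2) = 0 ∧ Real.cos (α 3) = 0)

/-- the five fixed Gram entries of a family -/
noncomputable def e10_f (α : Fin 5 → ℝ) : P5 :=
  ⟨-Real.cos (α 0), -Real.cos (α 1), -Real.cos (α 2), -Real.cos (α 3), -Real.cos (α 4)⟩

theorem e10_exc (α : Fin 5 → ℝ) : Exc (e10_f α) ↔ Exceptional α := by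
  unfold Exc Exceptional e10_f
  simp only [neg_eq_zero, neg_mul_neg]

/-- facts about a member of the family -/
theorem e10_member (α : Fin 5 → ℝ) (θ : ℝ) (n : Fin 4 → E4)
    (h : HasDihedral (Fin.cons θ α : Fin 6 → ℝ) n) :
    0 < θ ∧ θ < π ∧ (e10_f α).PD (-Real.cos θ) ∧ volFrac n = (e10_f α).Fr (-Real.cos θ) := by
  obtain ⟨n', hg', hli', hv'⟩ := e10_gram (e10_f α) (-Real.cos θ) _ n h rfl rfl rfl rfl rfl rfl
  have hFr := volFrac_eq_Fr (e10_f α) (-Real.cos θ) n' hg' hli'
  have hr := e10_angle n h.1 0 1 (by decide)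
  have h0 : π - InnerProductGeometry.angle (n 0) (n 1) = θ := h.2.1
  exact ⟨by linarith, by linarith, pd_of_gram _ _ n' hg' hli', by rw [← hFr, hv']⟩

/-- **[RSD-E10a]** in an exceptional family the volume is an affine function of the angle. -/
theorem family_affine (α : Fin 5 → ℝ) (hα : Exceptional α) :
    ∃ u v : ℝ, ∀ (θ : ℝ) (n : Fin 4 → E4), HasDihedral (Fin.cons θ α : Fin 6 → ℝ) n →
      volFrac n = u + v * θ := by
  obtain ⟨u, v, huv⟩ := affine_of_N_zero (e10_f α) (d6_exc_zero (e10_f α) ((e10_exc α).mpr hα))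
  refine ⟨u, v, fun θ n hn => ?_⟩
  obtain ⟨h1, h2, h3, h4⟩ := e10_member α θ n hn
  rw [h4, huv θ h1 h2 h3]

/-- **[RSD-E10b]** explicit volumes in the exceptional families. -/
theorem family_exceptional (α : Fin 5 → ℝ) (hα : Exceptional α) (θ : ℝ) (n : Fin 4 → E4)
    (h : HasDihedral (Fin.cons θ α : Fin 6 → ℝ) n) :
    volFrac n = (θ + α 1 + α 3 - π) / (8 * π) ∨ volFrac n = (θ + α 0 + α 2 - π) / (8 * π) ∨
      volFrac n = θ * α 4 / (4 * π ^ 2) := by
  obtain ⟨h1, h2, h3, h4⟩ := e10_member α θ n h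
  have hr : ∀ i, 0 < α i ∧ α i < π := by
    obtain ⟨hn, a0, a1, a2, a3, a4, a5⟩ := h
    have c1 : (Fin.cons θ α : Fin 6 → ℝ) 1 = α 0 := rfl
    have c2 : (Fin.cons θ α : Fin 6 → ℝ) 2 = α 1 := rfl
    have c3 : (Fin.cons θ α : Fin 6 → ℝ) 3 = α 2 := rfl
    have c4 : (Fin.cons θ α : Fin 6 → ℝ) 4 = α 3 := rfl
    have c5 : (Fin.cons θ α : Fin 6 → ℝ) 5 = α 4 := rfl
    rw [c1] at a1
    rw [c2] at a2
    rw [c3] at a3
    rw [c4] at a4
    rw [c5] at a5
    have r1 := e10_angle n hn 0 2 (by decide)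
    have r2 := e10_angle n hn 0 3 (by decide)
    have r3 := e10_angle n hn 1 2 (by decide)
    have r4 := e10_angle n hn 1 3 (by decide)
    have r5 := e10_angle n hn 2 3 (by decide)
    intro i
    fin_cases i
    · exact ⟨by simp only [Fin.zero_eta]; linarith, by simp only [Fin.zero_eta]; linarith⟩
    · exact ⟨by simp only [Fin.mk_one]; linarith, by simp only [Fin.mk_one]; linarith⟩
    · exact ⟨by simp only [Fin.reduceFinMk]; linarith, by simp only [Fin.reduceFinMk]; linarith⟩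
    · exact ⟨by simp only [Fin.reduceFinMk]; linarith, by simp only [Fin.reduceFinMk]; linarith⟩
    · exact ⟨by simp only [Fin.reduceFinMk]; linarith, by simp only [Fin.reduceFinMk]; linarith⟩
  rw [h4]
  exact exceptional_value θ α h1 h2 hr h3 ((e10_exc α).mpr hα)

/-- **[RSD-E10]** one-parameter families: five dihedral angles are fixed. -/
theorem family_dihedral (α : Fin 5 → ℝ) (hα : ¬ Exceptional α) (h4 : 0 < α 4)
    (h4' : α 4 < π) (N : ℕ) (hN : 1 ≤ N) (B : ℝ) (hB : 2 ≤ B) :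
    (({j : Fin N | ∃ n : Fin 4 → E4,
        HasDihedral (Fin.cons (π * (j : ℕ) / N) α : Fin 6 → ℝ) n ∧ RatVol B n}.ncard : ℕ) : ℝ)
      ≤ 10 ^ 5 * (N : ℝ) * (Real.log B / N) ^ ((1 : ℝ) / 80) / Real.sin (α 4) := by
  classical
  set S : Set (Fin N) := {j : Fin N | ∃ n : Fin 4 → E4,
        HasDihedral (Fin.cons (π * (j : ℕ) / N) α : Fin 6 → ℝ) n ∧ RatVol B n} with hS
  have hsin : 0 < Real.sin (α 4) := Real.sin_pos_of_pos_of_lt_pi h4 h4'
  have hNpos : (0 : ℝ) < N := by exact_mod_cast hN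
  have hlog : 0 < Real.log B := Real.log_pos (by linarith)
  rcases S.eq_empty_or_nonempty with hemp | ⟨j0, hj0⟩
  · rw [hemp, Set.ncard_empty, Nat.cast_zero]
    have : 0 < Real.log B / N := div_pos hlog hNpos
    positivity
  · obtain ⟨n0, hn0, _⟩ := hj0
    obtain ⟨_, _, hPD0, _⟩ := e10_member α _ n0 hn0
    obtain ⟨_, ha2, _⟩ := pd_ineq _ _ hPD0
    have he2 : 1 - (e10_f α).e ^ 2 = Real.sin (α 4) ^ 2 := by
      have : (e10_f α).e = -Real.cos (α 4) := rfl
      rw [this, Real.sin_sq]; ring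
    have hNz : ∃ g, (e10_f α).N g ≠ 0 := by
      by_contra hcon
      push Not at hcon
      exact hα ((e10_exc α).mp (exc_of_N_zero (e10_f α) hPD0.1 ha2 hcon))
    have hsq : √(1 - (e10_f α).e ^ 2) = Real.sin (α 4) := by
      rw [he2, Real.sqrt_sq hsin.le]
    -- the finset of indices
    have hfin : S.Finite := Set.toFinite S
    set J : Finset ℕ := hfin.toFinset.image (fun j : Fin N => (j : ℕ)) with hJdef
    have hJcard : J.card = S.ncard := by
      rw [hJdef, Finset.card_image_of_injective _ Fin.val_injective,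
        Set.ncard_eq_toFinset_card S hfin]
    have hJ : ∀ j ∈ J, 0 < j ∧ j < N ∧ (e10_f α).PD (ang N j) ∧
        ∃ p q : ℕ, 1 ≤ q ∧ (q : ℝ) ≤ B ∧ (e10_f α).Fr (ang N j) = (p : ℝ) / q := by
      intro j hj
      rw [hJdef, Finset.mem_image] at hj
      obtain ⟨i, hi, rfl⟩ := hj
      rw [Set.Finite.mem_toFinset] at hi
      obtain ⟨n, hn, p, q, hq1, hq2, hq3⟩ := hi
      obtain ⟨r1, r2, r3, r4⟩ := e10_member α _ n hn
      refine ⟨?_, i.2, r3, p, q, hq1, hq2, ?_⟩
      · rcases Nat.eq_zero_or_pos (i : ℕ) with h0 | h0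
        · exfalso
          rw [h0] at r1
          simp at r1
        · exact h0
      · rw [← hq3, r4]; rfl
    have hmain := family_bound (e10_f α) hNz hPD0.1 N hN B hB J hJ
    rw [hJcard, hsq] at hmain
    exact hmain

end Pool.Agent.RSD
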