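import Mathlib
import Pool.Agent.RSD.Defs
import Pool.Agent.RSD.C.C12
import Pool.Agent.RSD.E.E1
import Pool.Agent.RSD.E.E3
import Pool.Agent.RSD.E.E4

set_option autoImplicit false

/-! # [RSD-E5] counting bad 6-tuples -/

open Real

namespace Pool.Agent.RSD

/-- **[RSD-E5a]** facts for a bad 6-tuple (`hasAngles_gram`, `volFrac_eq_Fr`, `pd_of_gram`). -/
theorem bad_facts (N : ℕ) (hN : 1 ≤ N) (B : ℝ) (a : Fin 6 → Fin N) (ha : a ∈ badT N B) :
    0 < (a 0 : ℕ) ∧ (par N (fun k => (a k.succ : ℕ))).PD (ang N (a 0)) ∧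
      ∃ p q : ℕ, 1 ≤ q ∧ (q : ℝ) ≤ B ∧
        (par N (fun k => (a k.succ : ℕ))).Fr (ang N (a 0)) = (p : ℝ) / q := by
  obtain ⟨n, hn, p, q, hq1, hq2, hq3⟩ := ha
  obtain ⟨h1, n', hg, hli, hv⟩ := hasAngles_gram N hN (fun e => (a e : ℕ)) n hn
  refine ⟨(h1 0).1, pd_of_gram _ _ n' hg hli, p, q, hq1, hq2, ?_⟩
  rw [← hq3, ← hv]
  exact (volFrac_eq_Fr _ _ n' hg hli).symm

/-- **[RSD-E5b]** one fibre: for a fixed tail `b` which is generic (`b 1 ≠ b 3`, `b 0 ≠ b 2`) and
has `ε² ≤ 1 - (ang N (b 4))²`, the number of `j < N` such that `(j, b)` is bad.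

Proof. Split according to `D ≥ δ` or `D < δ`; `count_good`, `count_small`, `ang_inj`, `bad_facts`. -/
theorem fibre_bound (N m h : ℕ) (hN : 1 ≤ N) (hm : 1 ≤ m) (hh : 2 ≤ h) (δ ε : ℝ) (hδ : 0 < δ)
    (hδ1 : δ ≤ 1) (hε : 0 < ε) (hcond : (m : ℝ) * (h : ℝ) ^ 9 * 2 ^ 46 ≤ N * δ ^ 5)
    (B : ℝ) (hB : B ≤ 2 ^ m) (b : Fin 5 → Fin N) (hb1 : b 1 ≠ b 3) (hb2 : b 0 ≠ b 2)
    (hb3 : ε ^ 2 ≤ 1 - (ang N (b 4)) ^ 2)
    (J : Finset (Fin N)) (hJ : ∀ j ∈ J, (Fin.cons j b : Fin 6 → Fin N) ∈ badT N B) :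
    (J.card : ℝ) ≤ ((N : ℝ) / (h * m) + 1) * (270 * m) + 2 * (N * √(√δ / ε ^ 2) + 1) := by
  classical
  set f : P5 := par N (fun k => (b k : ℕ)) with hf
  have hbd : f.b ≠ f.d := by
    intro h0
    apply hb1
    have h1 : ang N (b 1) = ang N (b 3) := h0
    exact Fin.ext (ang_inj N _ _ hN (b 1).2.le (b 3).2.le h1)
  have hac : f.a ≠ f.c := by
    intro h0
    apply hb2
    have h1 : ang N (b 0) = ang N (b 2) := h0
    exact Fin.ext (ang_inj N _ _ hN (b 0).2.le (b 2).2.le h1)
  set J' : Finset ℕ := J.image (fun j : Fin N => (j : ℕ)) with hJ'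
  have hcard : J'.card = J.card := Finset.card_image_of_injective _ Fin.val_injective
  have hfacts : ∀ j ∈ J', 0 < j ∧ j < N ∧ f.PD (ang N j) ∧
      ∃ p q : ℕ, 1 ≤ q ∧ q ≤ 2 ^ m ∧ f.Fr (ang N j) = (p : ℝ) / q := by
    intro j hj
    rw [hJ', Finset.mem_image] at hj
    obtain ⟨i, hi, rfl⟩ := hj
    obtain ⟨h1, h2, p, q, h3, h4, h5⟩ := bad_facts N hN B _ (hJ i hi)
    refine ⟨h1, i.2, h2, p, q, h3, ?_, h5⟩
    have : (q : ℝ) ≤ 2 ^ m := le_trans h4 hB
    exact_mod_cast this
  have hgood := count_good N m h hN hm hh δ hδ hδ1 hcond f hbd hac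
    (J'.filter (fun j => δ ≤ f.D (ang N j))) (by
      intro j hj
      rw [Finset.mem_filter] at hj
      obtain ⟨h1, h2, h3, h4⟩ := hfacts j hj.1
      exact ⟨h1, h2, h3, hj.2, h4⟩)
  have hsm := count_small N hN f δ ε hδ hε hb3
    (J'.filter (fun j => ¬ δ ≤ f.D (ang N j))) (by
      intro j hj
      rw [Finset.mem_filter] at hj
      obtain ⟨h1, h2, h3, h4⟩ := hfacts j hj.1
      exact ⟨h2, h3, not_le.mp hj.2⟩)
  have hsplit : (J'.card : ℝ) = ((J'.filter (fun j => δ ≤ f.D (ang N j))).card : ℝ)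
      + ((J'.filter (fun j => ¬ δ ≤ f.D (ang N j))).card : ℝ) := by
    have := Finset.card_filter_add_card_filter_not (s := J') (fun j => δ ≤ f.D (ang N j))
    rw [← this]; push_cast; ring
  rw [← hcard, hsplit]
  linarith

theorem e5_card_coord (N : ℕ) (i : Fin 6) (p : Fin N → Prop) [DecidablePred p] :
    (Finset.univ.filter (fun a : Fin 6 → Fin N => p (a i))).card
      ≤ (Finset.univ.filter p).card * N ^ 5 := by
  classical
  have h1 : (Finset.univ.filter (fun a : Fin 6 → Fin N => p (a i))).card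
      ≤ ((Finset.univ.filter p) ×ˢ (Finset.univ : Finset (Fin 5 → Fin N))).card := by
    refine Finset.card_le_card_of_injOn (fun a => (a i, i.removeNth a)) ?_ ?_
    · intro a ha
      have ha' : p (a i) := by
        have := Finset.mem_coe.mp ha
        exact (Finset.mem_filter.mp this).2
      simp only [Finset.coe_product, Set.mem_prod, Finset.mem_coe, Finset.mem_filter,
        Finset.mem_univ, true_and, and_true]
      exact ha'
    · intro a _ b _ hab
      have h1 : a i = b i := (Prod.ext_iff.mp hab).1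
      have h2 : i.removeNth a = i.removeNth b := (Prod.ext_iff.mp hab).2
      rw [← Fin.insertNth_self_removeNth i a, ← Fin.insertNth_self_removeNth i b, h1, h2]
  rw [Finset.card_product, Finset.card_univ, Fintype.card_fun, Fintype.card_fin,
    Fintype.card_fin] at h1
  exact h1

theorem e5_card_eq (N : ℕ) (i j : Fin 6) (hij : i ≠ j) :
    (Finset.univ.filter (fun a : Fin 6 → Fin N => a i = a j)).card ≤ N ^ 5 := by
  classical
  have h1 : (Finset.univ.filter (fun a : Fin 6 → Fin N => a i = a j)).card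
      ≤ (Finset.univ : Finset (Fin 5 → Fin N)).card := by
    refine Finset.card_le_card_of_injOn (fun a => i.removeNth a) ?_ ?_
    · intro a _
      exact Finset.mem_coe.mpr (Finset.mem_univ _)
    · intro a ha b hb hab
      have ha' : a i = a j := (Finset.mem_filter.mp (Finset.mem_coe.mp ha)).2
      have hb' : b i = b j := (Finset.mem_filter.mp (Finset.mem_coe.mp hb)).2
      have h2 : i.removeNth a = i.removeNth b := hab
      obtain ⟨k, hk⟩ := Fin.exists_succAbove_eq (Ne.symm hij)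
      have h3 : a j = b j := by
        rw [← hk]
        exact congrFun h2 k
      have h1 : a i = b i := by rw [ha', hb', h3]
      rw [← Fin.insertNth_self_removeNth i a, ← Fin.insertNth_self_removeNth i b, h1, h2]
  rw [Finset.card_univ, Fintype.card_fun, Fintype.card_fin, Fintype.card_fin] at h1
  exact h1

/-- **[RSD-E5c]** total.

Proof. `badT N B ⊆ S₁ ∪ S₂ ∪ S₃`: `S₁ = {a 2 = a 4} ∪ {a 1 = a 3}`, at most `2 N⁵` elements;
`S₂ = {1 - (ang N (a 5))² < ε²}`, at most `N⁵ (ε N + 2)` (`count_sin`; product structure);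
`S₃` the rest, fibred over the tail `b = Fin.tail a` (at most `N⁵` tails), each fibre bounded by
`fibre_bound`. -/
theorem bad_card (N m h : ℕ) (hN : 1 ≤ N) (hm : 1 ≤ m) (hh : 2 ≤ h) (δ ε : ℝ) (hδ : 0 < δ)
    (hδ1 : δ ≤ 1) (hε : 0 < ε) (hcond : (m : ℝ) * (h : ℝ) ^ 9 * 2 ^ 46 ≤ N * δ ^ 5)
    (B : ℝ) (hB : B ≤ 2 ^ m) :
    ((badT N B).ncard : ℝ) ≤
      (N : ℝ) ^ 5 * (((N : ℝ) / (h * m) + 1) * (270 * m) + 2 * (N * √(√δ / ε ^ 2) + 1))
        + 2 * (N : ℝ) ^ 5 + (N : ℝ) ^ 5 * (ε * N + 2) := by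
  classical
  set X : ℝ := ((N : ℝ) / (h * m) + 1) * (270 * m) + 2 * (N * √(√δ / ε ^ 2) + 1) with hX
  have hX0 : 0 ≤ X := by positivity
  have hfin : (badT N B).Finite := Set.toFinite _
  set T : Finset (Fin 6 → Fin N) := hfin.toFinset with hT
  have hTmem : ∀ a, a ∈ T ↔ a ∈ badT N B := fun a => Set.Finite.mem_toFinset hfin
  rw [Set.ncard_eq_toFinset_card (badT N B) hfin, ← hT]
  let G : (Fin 5 → Fin N) → Prop := fun b =>
    b 1 ≠ b 3 ∧ b 0 ≠ b 2 ∧ ε ^ 2 ≤ 1 - (ang N (b 4)) ^ 2
  -- first part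
  have hfirst : ((T.filter (fun a => G (Fin.tail a))).card : ℝ) ≤ (N : ℝ) ^ 5 * X := by
    have hfib := Finset.card_eq_sum_card_fiberwise (s := T.filter (fun a => G (Fin.tail a)))
      (f := fun a => (Fin.tail a : Fin 5 → Fin N)) (t := Finset.univ)
      (fun a _ => Finset.mem_coe.mpr (Finset.mem_univ _))
    rw [hfib]
    push_cast
    have hone : ∀ b ∈ (Finset.univ : Finset (Fin 5 → Fin N)),
        (((T.filter (fun a => G (Fin.tail a))).filter (fun a => Fin.tail a = b)).card : ℝ) ≤ X := by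
      intro b _
      by_cases hG : G b
      · have hJ := fibre_bound N m h hN hm hh δ ε hδ hδ1 hε hcond B hB b hG.1 hG.2.1 hG.2.2
          (Finset.univ.filter (fun j => (Fin.cons j b : Fin 6 → Fin N) ∈ badT N B)) (by
            intro j hj
            exact (Finset.mem_filter.mp hj).2)
        refine le_trans ?_ hJ
        have : ((T.filter (fun a => G (Fin.tail a))).filter (fun a => Fin.tail a = b)).card
            ≤ (Finset.univ.filter (fun j => (Fin.cons j b : Fin 6 → Fin N) ∈ badT N B)).card := by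
          refine Finset.card_le_card_of_injOn (fun a => a 0) ?_ ?_
          · intro a ha
            have ha1 := Finset.mem_filter.mp (Finset.mem_coe.mp ha)
            have ha2 := Finset.mem_filter.mp ha1.1
            refine Finset.mem_coe.mpr (Finset.mem_filter.mpr ⟨Finset.mem_univ _, ?_⟩)
            have : (Fin.cons (a 0) b : Fin 6 → Fin N) = a := by
              rw [← ha1.2]; exact Fin.cons_self_tail a
            rw [this]
            exact (hTmem a).mp ha2.1
          · intro a ha c hc hac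
            have ha1 := (Finset.mem_filter.mp (Finset.mem_coe.mp ha)).2
            have hc1 := (Finset.mem_filter.mp (Finset.mem_coe.mp hc)).2
            have h0 : a 0 = c 0 := hac
            rw [← Fin.cons_self_tail a, ← Fin.cons_self_tail c, ha1, hc1, h0]
        exact_mod_cast this
      · have : ((T.filter (fun a => G (Fin.tail a))).filter (fun a => Fin.tail a = b)) = ∅ := by
          rw [Finset.eq_empty_iff_forall_notMem]
          intro a ha
          have ha1 := Finset.mem_filter.mp ha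
          have ha2 := Finset.mem_filter.mp ha1.1
          rw [ha1.2] at ha2
          exact hG ha2.2
        rw [this, Finset.card_empty, Nat.cast_zero]
        exact hX0
    calc ∑ b : Fin 5 → Fin N, (((T.filter (fun a => G (Fin.tail a))).filter
            (fun a => Fin.tail a = b)).card : ℝ)
        ≤ ∑ _b : Fin 5 → Fin N, X := Finset.sum_le_sum hone
      _ = (N : ℝ) ^ 5 * X := by
        rw [Finset.sum_const, Finset.card_univ, Fintype.card_fun, Fintype.card_fin,
          Fintype.card_fin, nsmul_eq_mul]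
        push_cast; ring
  -- second part
  have hsecond : ((T.filter (fun a => ¬ G (Fin.tail a))).card : ℝ)
      ≤ 2 * (N : ℝ) ^ 5 + (N : ℝ) ^ 5 * (ε * N + 2) := by
    have hsub : T.filter (fun a => ¬ G (Fin.tail a)) ⊆
        (Finset.univ.filter (fun a : Fin 6 → Fin N => a 2 = a 4)) ∪
        ((Finset.univ.filter (fun a : Fin 6 → Fin N => a 1 = a 3)) ∪
        (Finset.univ.filter (fun a : Fin 6 → Fin N => 1 - (ang N (a 5)) ^ 2 < ε ^ 2))) := by
      intro a ha
      have ha1 := (Finset.mem_filter.mp ha).2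
      by_contra hcon
      apply ha1
      simp only [Finset.mem_union, Finset.mem_filter, Finset.mem_univ, true_and, not_or,
        not_lt] at hcon
      exact ⟨hcon.1, hcon.2.1, hcon.2.2⟩
    have hc1 := Finset.card_le_card hsub
    have hc2 := Finset.card_union_le (Finset.univ.filter (fun a : Fin 6 → Fin N => a 2 = a 4))
      ((Finset.univ.filter (fun a : Fin 6 → Fin N => a 1 = a 3)) ∪
        (Finset.univ.filter (fun a : Fin 6 → Fin N => 1 - (ang N (a 5)) ^ 2 < ε ^ 2)))
    have hc3 := Finset.card_union_le (Finset.univ.filter (fun a : Fin 6 → Fin N => a 1 = a 3))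
      (Finset.univ.filter (fun a : Fin 6 → Fin N => 1 - (ang N (a 5)) ^ 2 < ε ^ 2))
    have hU1 := e5_card_eq N 2 4 (by decide)
    have hU2 := e5_card_eq N 1 3 (by decide)
    have hU3 := e5_card_coord N 5 (fun j : Fin N => 1 - (ang N (j : ℕ)) ^ 2 < ε ^ 2)
    have hcnt : ((Finset.univ.filter (fun j : Fin N => 1 - (ang N (j : ℕ)) ^ 2 < ε ^ 2)).card : ℝ)
        ≤ ε * N + 2 := by
      have h1 := count_sin N hN ε hε
        ((Finset.univ.filter (fun j : Fin N => 1 - (ang N (j : ℕ)) ^ 2 < ε ^ 2)).image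
          (fun j : Fin N => (j : ℕ))) (by
            intro j hj
            rw [Finset.mem_image] at hj
            obtain ⟨i, hi, rfl⟩ := hj
            exact ⟨i.2, (Finset.mem_filter.mp hi).2⟩)
      rwa [Finset.card_image_of_injective _ Fin.val_injective] at h1
    have hall : ((T.filter (fun a => ¬ G (Fin.tail a))).card : ℝ) ≤
        (N : ℝ) ^ 5 + ((N : ℝ) ^ 5 +
          ((Finset.univ.filter (fun j : Fin N => 1 - (ang N (j : ℕ)) ^ 2 < ε ^ 2)).card : ℝ)
            * (N : ℝ) ^ 5) := by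
      have : (T.filter (fun a => ¬ G (Fin.tail a))).card ≤
        N ^ 5 + (N ^ 5 +
          (Finset.univ.filter (fun j : Fin N => 1 - (ang N (j : ℕ)) ^ 2 < ε ^ 2)).card * N ^ 5) := by
        omega
      exact_mod_cast this
    have hN5 : (0 : ℝ) ≤ (N : ℝ) ^ 5 := by positivity
    nlinarith [mul_le_mul_of_nonneg_right hcnt hN5]
  have hsplit : (T.card : ℝ) = ((T.filter (fun a => G (Fin.tail a))).card : ℝ)
      + ((T.filter (fun a => ¬ G (Fin.tail a))).card : ℝ) := by
    have := Finset.card_filter_add_card_filter_not (s := T) (fun a => G (Fin.tail a))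
    rw [← this]; push_cast; ring
  rw [hsplit]
  linarith

end Pool.Agent.RSD
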