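import Mathlib
import Pool.Agent.RSD.Defs
import Pool.Agent.RSD.C.C0
import Pool.Agent.RSD.E.E1

set_option autoImplicit false

/-! # [RSD-E7] many 6-tuples are realised -/

open Real

namespace Pool.Agent.RSD

theorem e7_mul {x y A B : ℝ} (hx : |x| ≤ A) (hy : |y| ≤ B) : |x * y| ≤ A * B := by
  rw [abs_mul]
  exact mul_le_mul hx hy (abs_nonneg _) ((abs_nonneg _).trans hx)

/-- **[RSD-E7a]** entries of absolute value `≤ 27/100` are positive definite.
(`q22 ≥ 1 - 3(.0729) - 2(.0197) > 0`; `D ≥ 1 - 6(.0729) - 8(.0197) - 6(.00532) > 0.3`: bound the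
products by absolute values.) -/
theorem pd_of_small (f : P5) (g : ℝ) (hg : |g| ≤ 27 / 100) (ha : |f.a| ≤ 27 / 100)
    (hb : |f.b| ≤ 27 / 100) (hc : |f.c| ≤ 27 / 100) (hd : |f.d| ≤ 27 / 100)
    (he : |f.e| ≤ 27 / 100) : f.PD g := by
  have gg := e7_mul hg hg
  have aa := e7_mul ha ha
  have bb := e7_mul hb hb
  have cc := e7_mul hc hc
  have dd := e7_mul hd hd
  have ee := e7_mul he he
  have gac := e7_mul (e7_mul hg ha) hc
  have gbd := e7_mul (e7_mul hg hb) hd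
  have abe := e7_mul (e7_mul ha hb) he
  have cde := e7_mul (e7_mul hc hd) he
  have gbce := e7_mul (e7_mul (e7_mul hg hb) hc) he
  have gade := e7_mul (e7_mul (e7_mul hg ha) hd) he
  have abcd := e7_mul (e7_mul (e7_mul ha hb) hc) hd
  have s1 : 0 ≤ (g * f.e) ^ 2 := sq_nonneg _
  have s2 : 0 ≤ (f.a * f.d) ^ 2 := sq_nonneg _
  have s3 : 0 ≤ (f.b * f.c) ^ 2 := sq_nonneg _
  rw [abs_le] at gg aa bb cc dd ee gac gbd abe cde gbce gade abcd
  norm_num at gg aa bb cc dd ee gac gbd abe cde gbce gade abcd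
  refine ⟨?_, ?_, ?_⟩
  · nlinarith [ee.2]
  · unfold q22
    nlinarith [aa.2, bb.2, ee.2, abe.1]
  · unfold P5.D qD
    nlinarith [gg.2, aa.2, bb.2, cc.2, dd.2, ee.2, gac.1, gbd.1, abe.1, cde.1, gbce.2, gade.2,
      abcd.2]

/-- **[RSD-E7b]** `|cos (π j/N)| ≤ π/12 ≤ 27/100` when `5 N ≤ 12 j ≤ 7 N`
(`cos x = sin (π/2 - x)`, `|sin y| ≤ |y|`). -/
theorem ang_small (N j : ℕ) (hN : 1 ≤ N) (h1 : 5 * N ≤ 12 * j) (h2 : 12 * j ≤ 7 * N) :
    |ang N j| ≤ 27 / 100 := by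
  have hN0 : (0 : ℝ) < N := by exact_mod_cast hN
  have h1' : 5 * (N : ℝ) ≤ 12 * j := by exact_mod_cast h1
  have h2' : 12 * (j : ℝ) ≤ 7 * N := by exact_mod_cast h2
  unfold ang
  rw [abs_neg, ← Real.sin_pi_div_two_sub]
  have hsin : |Real.sin (π / 2 - π * j / N)| ≤ |π / 2 - π * j / N| := Real.abs_sin_le_abs
  refine hsin.trans ?_
  have e : π / 2 - π * j / N = π * ((N - 2 * j) / (2 * N)) := by
    field_simp
  rw [e, abs_mul, abs_of_pos Real.pi_pos, abs_div, abs_of_pos (by positivity : (0 : ℝ) < 2 * N)]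
  have h3 : |(N : ℝ) - 2 * j| ≤ N / 6 := by
    rw [abs_le]
    constructor <;> linarith
  have h4 : |(N : ℝ) - 2 * j| / (2 * N) ≤ 1 / 12 := by
    rw [div_le_iff₀ (by positivity)]
    linarith
  calc π * (|(N : ℝ) - 2 * j| / (2 * N)) ≤ π * (1 / 12) :=
        mul_le_mul_of_nonneg_left h4 Real.pi_pos.le
    _ ≤ 27 / 100 := by
        have := Real.pi_lt_d2
        linarith

/-- **[RSD-E7c]** lower bound of the number of realised 6-tuples.

Proof. All `a` with `5N ≤ 12 a e ≤ 7N` for every `e` belong to `allT N` (`pd_of_small`,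
`exists_gram`, `hasAngles_of_gram`); their number is `k⁶` (`Fintype.piFinset`), where `k` is the
number of `j < N` with `5N ≤ 12 j ≤ 7N`; `k ≥ N/6 - 1 ≥ N/10` for `N ≥ 15`. -/
theorem all_card (N : ℕ) (hN : 15 ≤ N) : (N : ℝ) ^ 6 / 10 ^ 6 ≤ ((allT N).ncard : ℝ) := by
  classical
  have hN1 : 1 ≤ N := by omega
  set T : Finset (Fin N) := Finset.univ.filter (fun j => 5 * N ≤ 12 * (j : ℕ) ∧
    12 * (j : ℕ) ≤ 7 * N) with hT
  -- the number of allowed values
  have hk : N ≤ 10 * T.card := by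
    have hsub : Finset.Icc ((5 * N + 11) / 12) (7 * N / 12) ⊆ T.image (fun j : Fin N => (j : ℕ)) := by
      intro j hj
      rw [Finset.mem_Icc] at hj
      rw [Finset.mem_image]
      refine ⟨⟨j, by omega⟩, ?_, rfl⟩
      rw [hT, Finset.mem_filter]
      refine ⟨Finset.mem_univ _, ?_⟩
      show 5 * N ≤ 12 * j ∧ 12 * j ≤ 7 * N
      omega
    have h1 := (Finset.card_le_card hsub).trans Finset.card_image_le
    rw [Nat.card_Icc] at h1
    omega
  have hsub : ((Fintype.piFinset (fun _ : Fin 6 => T) : Finset (Fin 6 → Fin N)) :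
      Set (Fin 6 → Fin N)) ⊆ allT N := by
    intro a ha
    rw [Finset.mem_coe, Fintype.mem_piFinset] at ha
    have hs : ∀ e, |ang N (a e)| ≤ 27 / 100 := by
      intro e
      have h := ha e
      rw [hT, Finset.mem_filter] at h
      exact ang_small N _ hN1 h.2.1 h.2.2
    have hPD : (par N (fun k => (a k.succ : ℕ))).PD (ang N (a 0)) :=
      pd_of_small _ _ (hs 0) (hs _) (hs _) (hs _) (hs _) (hs _)
    obtain ⟨n, hn, hl⟩ := exists_gram _ _ hPD
    exact ⟨n, hasAngles_of_gram N hN1 (fun e => (a e : ℕ)) (fun e => (a e).isLt.le) n hn hl⟩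
  have hcard := Set.ncard_le_ncard hsub (Set.toFinite _)
  rw [Set.ncard_coe_finset, Fintype.card_piFinset_const] at hcard
  have h6 : (T.card : ℝ) ^ 6 ≤ ((allT N).ncard : ℝ) := by exact_mod_cast hcard
  have hk' : (N : ℝ) ≤ 10 * T.card := by exact_mod_cast hk
  have h7 : (N : ℝ) ^ 6 ≤ (10 * T.card) ^ 6 := pow_le_pow_left₀ (Nat.cast_nonneg _) hk' 6
  rw [div_le_iff₀ (by norm_num)]
  calc (N : ℝ) ^ 6 ≤ (10 * T.card) ^ 6 := h7
    _ = (T.card : ℝ) ^ 6 * 10 ^ 6 := by ring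
    _ ≤ ((allT N).ncard : ℝ) * 10 ^ 6 := mul_le_mul_of_nonneg_right h6 (by norm_num)

end Pool.Agent.RSD
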