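import Mathlib
import Pool.Agent.RSD.Defs
import Pool.Agent.RSD.E.E5
import Pool.Agent.RSD.E.E6
import Pool.Agent.RSD.E.E7

set_option autoImplicit false

/-! # [RSD-E8] final assembly -/

open Real

namespace Pool.Agent.RSD

theorem e8_card (N : ℕ) (S : Set (Fin 6 → Fin N)) : (S.ncard : ℝ) ≤ (N : ℝ) ^ 6 := by
  classical
  have h1 : S.ncard ≤ (Set.univ : Set (Fin 6 → Fin N)).ncard :=
    Set.ncard_le_ncard (Set.subset_univ S) Set.finite_univ
  rw [Set.ncard_univ, Nat.card_eq_fintype_card, Fintype.card_fun, Fintype.card_fin,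
    Fintype.card_fin] at h1
  exact_mod_cast h1

/-- **[RSD-E8a]** the quantitative bound.  If `80^18 t ≤ 1` (`t = log B/N`): `param_choice`,
`bad_card`.  Otherwise `t^{1/80} ≥ 80^{-18/80} ≥ 1/3` and `ncard ≤ N⁶`. -/
theorem bad_bound (N : ℕ) (hN : 1 ≤ N) (B : ℝ) (hB : 2 ≤ B) :
    ((badT N B).ncard : ℝ) ≤ 10 ^ 5 * (N : ℝ) ^ 6 * (Real.log B / N) ^ ((1 : ℝ) / 80) := by
  have hNpos : (0 : ℝ) < N := by exact_mod_cast hN
  have hlog : 0 < Real.log B := Real.log_pos (by linarith)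
  have htpos : 0 < Real.log B / N := div_pos hlog hNpos
  by_cases hsmall : (80 : ℝ) ^ 18 * (Real.log B / N) ≤ 1
  · obtain ⟨m, h, δ, ε, hm, hh, hδ, hδ1, hε, hcond, hBm, htot⟩ := param_choice N hN B hB hsmall
    exact le_trans (bad_card N m h hN hm hh δ ε hδ hδ1 hε hcond B hBm) htot
  · set t : ℝ := Real.log B / N with ht
    have htp : 0 < t ^ ((1 : ℝ) / 80) := Real.rpow_pos_of_pos htpos _
    have hbig : (1 : ℝ) ≤ ((80 : ℝ) ^ 18 * t) ^ ((1 : ℝ) / 80) :=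
      Real.one_le_rpow (not_le.mp hsmall).le (by norm_num)
    rw [Real.mul_rpow (by positivity) htpos.le] at hbig
    have h80 : ((80 : ℝ) ^ 18) ^ ((1 : ℝ) / 80) ≤ 80 := by
      rw [← Real.rpow_natCast, ← Real.rpow_mul (by norm_num)]
      calc (80 : ℝ) ^ (((18 : ℕ) : ℝ) * ((1 : ℝ) / 80)) ≤ (80 : ℝ) ^ (1 : ℝ) := by
            apply Real.rpow_le_rpow_of_exponent_le (by norm_num)
            norm_num
        _ = 80 := Real.rpow_one _
    have h1 : (1 : ℝ) ≤ 80 * t ^ ((1 : ℝ) / 80) :=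
      le_trans hbig (mul_le_mul_of_nonneg_right h80 htp.le)
    have hN6 : (0 : ℝ) < (N : ℝ) ^ 6 := by positivity
    calc ((badT N B).ncard : ℝ) ≤ (N : ℝ) ^ 6 * 1 := by
          rw [mul_one]; exact e8_card N _
      _ ≤ (N : ℝ) ^ 6 * (80 * t ^ ((1 : ℝ) / 80)) := mul_le_mul_of_nonneg_left h1 hN6.le
      _ ≤ 10 ^ 5 * (N : ℝ) ^ 6 * t ^ ((1 : ℝ) / 80) := by
        have : 0 ≤ (N : ℝ) ^ 6 * t ^ ((1 : ℝ) / 80) := by positivity
        nlinarith

/-- **[RSD-E8b]** almost all: `c = (η/10^11)^80`; for `N ≥ max(15, log 2/c)`. -/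
theorem almost_all (η : ℝ) (hη : 0 < η) :
    ∃ c : ℝ, 0 < c ∧ ∃ N₀ : ℕ, ∀ N ≥ N₀,
      ((badT N (Real.exp (c * N))).ncard : ℝ) ≤ η * ((allT N).ncard : ℝ) := by
  set c : ℝ := (η / 10 ^ 11) ^ 80 with hc
  have hc0 : 0 < c := by positivity
  refine ⟨c, hc0, max 15 ⌈Real.log 2 / c⌉₊, fun N hN => ?_⟩
  have hN15 : 15 ≤ N := le_trans (le_max_left _ _) hN
  have hN1 : 1 ≤ N := by omega
  have hNpos : (0 : ℝ) < N := by exact_mod_cast hN1
  have hN2 : Real.log 2 / c ≤ N := le_trans (Nat.le_ceil _) (by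
    exact_mod_cast (le_trans (le_max_right _ _) hN))
  have hB : 2 ≤ Real.exp (c * N) := by
    rw [div_le_iff₀ hc0] at hN2
    calc (2 : ℝ) = Real.exp (Real.log 2) := (Real.exp_log (by norm_num)).symm
      _ ≤ Real.exp (c * N) := Real.exp_le_exp.mpr (by linarith)
  have h1 := bad_bound N hN1 _ hB
  rw [Real.log_exp, mul_div_assoc, div_self hNpos.ne', mul_one] at h1
  have hroot : c ^ ((1 : ℝ) / 80) = η / 10 ^ 11 := by
    rw [hc, ← Real.rpow_natCast, ← Real.rpow_mul (by positivity)]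
    norm_num
  rw [hroot] at h1
  have h2 := all_card N hN15
  calc ((badT N (Real.exp (c * N))).ncard : ℝ) ≤ 10 ^ 5 * (N : ℝ) ^ 6 * (η / 10 ^ 11) := h1
    _ = η * ((N : ℝ) ^ 6 / 10 ^ 6) := by ring
    _ ≤ η * ((allT N).ncard : ℝ) := mul_le_mul_of_nonneg_left h2 hη.le

end Pool.Agent.RSD
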