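import Mathlib
import Pool.Agent.RSD.Defs
import Pool.Agent.RSD.E.E8
import Pool.Agent.RSD.E.E10

set_option autoImplicit false

/-! # [RSD-E11] the final statements -/

open Real

namespace Pool.Agent.RSD

/-- the 6-tuples of level `N` realised by a spherical tetrahedron -/
def lev (N : ℕ) : Set (Fin 6 → Fin N) :=
  {a | ∃ n : Fin 4 → E4, HasDihedral (fun e => π * (a e : ℕ) / N) n}

/-- those for which the volume is `p/q` of the volume of `S³` with `1 ≤ q ≤ B` -/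
def levB (N : ℕ) (B : ℝ) : Set (Fin 6 → Fin N) :=
  {a | ∃ n : Fin 4 → E4, HasDihedral (fun e => π * (a e : ℕ) / N) n ∧ RatVol B n}

theorem e11_lev (N : ℕ) : lev N = allT N := rfl

theorem e11_levB (N : ℕ) (B : ℝ) : levB N B = badT N B := rfl

/-- counting of all 6-tuples and of those with volume of small denominator -/
theorem six_param (N : ℕ) (hN : 15 ≤ N) (B : ℝ) (hB : 2 ≤ B) :
    (N : ℝ) ^ 6 / 10 ^ 6 ≤ ((lev N).ncard : ℝ) ∧
    ((levB N B).ncard : ℝ) ≤ 10 ^ 11 * (Real.log B / N) ^ ((1 : ℝ) / 80) * ((lev N).ncard : ℝ) := by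
  have hN1 : 1 ≤ N := by omega
  have hNpos : (0 : ℝ) < N := by exact_mod_cast hN1
  have hlog : 0 < Real.log B := Real.log_pos (by linarith)
  have ht : 0 < Real.log B / N := div_pos hlog hNpos
  have h1 := all_card N hN
  have h2 := bad_bound N hN1 B hB
  rw [e11_lev, e11_levB]
  refine ⟨h1, le_trans h2 ?_⟩
  have h3 : 0 ≤ 10 ^ 11 * (Real.log B / N) ^ ((1 : ℝ) / 80) := by positivity
  calc 10 ^ 5 * (N : ℝ) ^ 6 * (Real.log B / N) ^ ((1 : ℝ) / 80)
      = 10 ^ 11 * (Real.log B / N) ^ ((1 : ℝ) / 80) * ((N : ℝ) ^ 6 / 10 ^ 6) := by ring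
    _ ≤ 10 ^ 11 * (Real.log B / N) ^ ((1 : ℝ) / 80) * ((allT N).ncard : ℝ) :=
        mul_le_mul_of_nonneg_left h1 h3

end Pool.Agent.RSD
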